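import Mathlib

open scoped ComplexOrder Topology
open Filter

namespace Run7.h884

/-- Words in the letters `0, …, n-1`. -/
abbrev Word (n : ℕ) := List (Fin n)

/-- Non-commutative polynomials in `n` variables, as finitely supported functions on words. -/
abbrev NCPoly (n : ℕ) := Word n →₀ ℂ

/-- The algebraic tensor square of the non-commutative polynomials. -/
abbrev NCTensor (n : ℕ) := (Word n × Word n) →₀ ℂ

/-- All pairs `(u, v)` of words with `w = u ++ j :: v`. -/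
def splits {n : ℕ} (j : Fin n) : Word n → List (Word n × Word n)
  | [] => []
  | i :: w => (if i = j then [([], w)] else []) ++ (splits j w).map (fun p => (i :: p.1, p.2))

/-- Voiculescu's free difference quotient `∂_j`. -/
noncomputable def freeDiff {n : ℕ} (j : Fin n) (P : NCPoly n) : NCTensor n :=
  P.sum fun w c => ((splits j w).map fun p => Finsupp.single p c).sum

/-- The cyclic derivative `𝒟_j`. -/
noncomputable def cyclicDiff {n : ℕ} (j : Fin n) (P : NCPoly n) : NCPoly n :=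
  P.sum fun w c => ((splits j w).map fun p => Finsupp.single (p.2 ++ p.1) c).sum

section

variable {A : Type*} [CStarAlgebra A] [PartialOrder A] [StarOrderedRing A]

/-- The value of a word at an `n`-tuple. -/
def wordEval {n : ℕ} (Z : Fin n → A) (w : Word n) : A := (w.map Z).prod

/-- The value of a non-commutative polynomial at an `n`-tuple. -/
noncomputable def polyEval {n : ℕ} (Z : Fin n → A) (P : NCPoly n) : A :=
  P.sum fun w c => c • wordEval Z w

/-- Faithful tracial states. -/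
structure IsFaithfulTracialState (τ : A →ₚ[ℂ] ℂ) : Prop where
  map_one : τ 1 = 1
  tracial : ∀ a b : A, τ (a * b) = τ (b * a)
  faithful : ∀ a : A, τ (star a * a) = 0 → a = 0

/-- Moments of the semicircle law of variance `1`. -/
def semicircleMoment (k : ℕ) : ℂ := if Even k then (catalan (k / 2) : ℂ) else 0

/-- Free independence of the family `X` : an alternating product of centred polynomials in the
single variables `X i` is centred. -/
def FreelyIndependent {n : ℕ} (τ : A →ₚ[ℂ] ℂ) (X : Fin n → A) : Prop :=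
  ∀ l : List (Fin n × Polynomial ℂ), l ≠ [] → (l.map Prod.fst).IsChain (· ≠ ·) →
    (∀ q ∈ l, τ (Polynomial.aeval (X q.1) q.2) = 0) →
    τ ((l.map fun q => Polynomial.aeval (X q.1) q.2).prod) = 0

/-- Free semicircular families of variance `1`. -/
structure IsFreeSemicircular {n : ℕ} (τ : A →ₚ[ℂ] ℂ) (X : Fin n → A) : Prop where
  selfAdjoint : ∀ i, IsSelfAdjoint (X i)
  semicircular : ∀ i k, τ (X i ^ k) = semicircleMoment k
  free : FreelyIndependent τ X

/-- The square `‖a - b‖₂²` of the distance in `L²(A, τ)`. -/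
noncomputable def sqDist (τ : A →ₚ[ℂ] ℂ) (a b : A) : ℝ := (τ (star (a - b) * (a - b))).re

/-- The polynomials in `X` are dense in `L²(A, τ)`. -/
def Generates {n : ℕ} (τ : A →ₚ[ℂ] ℂ) (X : Fin n → A) : Prop :=
  ∀ a : A, ∀ ε : ℝ, 0 < ε → ∃ P : NCPoly n, sqDist τ (polyEval X P) a < ε

/-- `⟨ζ, J ζ⟩` for `J = 𝒥𝒟g(X)`, i.e. `J i j = ∂_j 𝒟_i g (X)`, and the vector
`ζ i = ∑ k, p k i ⊗ q k i` of `(L²(A) ⊗ L²(A))^n`, where `a ⊗ b` acts by
`p ⊗ q ↦ a p ⊗ q b`. -/
noncomputable def hessianForm {n : ℕ} (τ : A →ₚ[ℂ] ℂ) (X : Fin n → A) (g : NCPoly n) {m : ℕ}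
    (p q : Fin m → Fin n → A) : ℂ :=
  ∑ k, ∑ l, ∑ i, ∑ j, (freeDiff j (cyclicDiff i g)).sum fun w c =>
    c * (τ (star (p k i) * (wordEval X w.1 * p l j)) * τ (star (q k i) * (q l j * wordEval X w.2)))

/-- `⟨ζ, ζ⟩` for the vector `ζ i = ∑ k, p k i ⊗ q k i`. -/
noncomputable def tensorSqNorm {n : ℕ} (τ : A →ₚ[ℂ] ℂ) {m : ℕ} (p q : Fin m → Fin n → A) : ℂ :=
  ∑ k, ∑ l, ∑ i, τ (star (p k i) * p l i) * τ (star (q k i) * q l i)

/-- `Y` is a self-adjoint tuple which is an `L²`-limit of gradients `𝒟g(X)` of non-commutative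
polynomials with `0 ≤ 𝒥𝒟g(X) ≤ Λ` for one constant `Λ`. -/
structure LipschitzMonotone {n : ℕ} (τ : A →ₚ[ℂ] ℂ) (X Y : Fin n → A) : Prop where
  selfAdjoint : ∀ i, IsSelfAdjoint (Y i)
  approx : ∃ (Λ : ℝ) (g : ℕ → NCPoly n),
    (∀ (r m : ℕ) (p q : Fin m → Fin n → A), 0 ≤ hessianForm τ X (g r) p q ∧
      hessianForm τ X (g r) p q ≤ Λ * tensorSqNorm τ p q) ∧
    ∀ i, Tendsto (fun r => sqDist τ (polyEval X (cyclicDiff i (g r))) (Y i)) atTop (𝓝 0)

/-- The inner product of `L²(A ⊗ A, τ ⊗ τ)` evaluated at `S(Y)` and `T(Y)`. -/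
noncomputable def tensorInner {n : ℕ} (τ : A →ₚ[ℂ] ℂ) (Y : Fin n → A) (S T : NCTensor n) : ℂ :=
  S.sum fun u c => T.sum fun v d => star c * d *
    (τ (star (wordEval Y u.1) * wordEval Y v.1) * τ (star (wordEval Y u.2) * wordEval Y v.2))

/-- `X` is a Sobolev (`W^{1,2}`) function of `Y` : there are tuples of polynomials `F r` with
`F r (Y) → X` in `L²` such that `∂_j (F r)_i (Y)` is a Cauchy sequence in `L²(τ ⊗ τ)`. -/
def SobolevInvertible {n : ℕ} (τ : A →ₚ[ℂ] ℂ) (X Y : Fin n → A) : Prop :=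
  ∃ F : ℕ → Fin n → NCPoly n,
    (∀ i, Tendsto (fun r => sqDist τ (polyEval Y (F r i)) (X i)) atTop (𝓝 0)) ∧
    ∀ i j, ∀ ε : ℝ, 0 < ε → ∃ N, ∀ r ≥ N, ∀ s ≥ N,
      (tensorInner τ Y (freeDiff j (F r i - F s i)) (freeDiff j (F r i - F s i))).re < ε

/-- `Y` and `Y'` have the same law. -/
def SameLaw {n : ℕ} (τ : A →ₚ[ℂ] ℂ) (Y Y' : Fin n → A) : Prop :=
  ∀ P : NCPoly n, τ (polyEval Y P) = τ (polyEval Y' P)

end

end Run7.h884
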