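import Mathlib

set_option linter.all false

open scoped InnerProductSpace Topology ComplexOrder
open Filter

namespace Run7.h884

/-- `n × n` matrices with entries in a Hilbert space -/
abbrev MM (n : ℕ) (K : Type*) [NormedAddCommGroup K] [InnerProductSpace ℂ K] :=
  PiLp 2 (fun _ : Fin n × Fin n => K)

variable {n : ℕ} {K : Type*} [NormedAddCommGroup K] [InnerProductSpace ℂ K]

/-- build an operator into matrices from its entries -/
noncomputable def mkMM {F : Type*} [NormedAddCommGroup F] [InnerProductSpace ℂ F]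
    (f : Fin n → Fin n → (F →L[ℂ] K)) : F →L[ℂ] MM n K :=
  ((PiLp.continuousLinearEquiv 2 ℂ (fun _ : Fin n × Fin n => K)).symm :
    (Fin n × Fin n → K) →L[ℂ] MM n K) ∘L ContinuousLinearMap.pi (fun p => f p.1 p.2)

@[simp] lemma mkMM_apply {F : Type*} [NormedAddCommGroup F] [InnerProductSpace ℂ F]
    (f : Fin n → Fin n → (F →L[ℂ] K)) (x : F) (i j : Fin n) : mkMM f x (i, j) = f i j x := rfl

/-- coordinate -/
noncomputable def prj (i j : Fin n) : MM n K →L[ℂ] K := PiLp.proj 2 (fun _ : Fin n × Fin n => K) (i, j)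

@[simp] lemma prj_apply (i j : Fin n) (T : MM n K) : prj i j T = T (i, j) := rfl

/-- matrix with one entry -/
noncomputable def sgl (i j : Fin n) : K →L[ℂ] MM n K :=
  mkMM (fun i' j' => if i' = i ∧ j' = j then ContinuousLinearMap.id ℂ K else 0)

lemma sgl_apply (i j i' j' : Fin n) (x : K) :
    sgl i j x (i', j') = if i' = i ∧ j' = j then x else 0 := by
  unfold sgl
  rw [mkMM_apply]
  split_ifs <;> simp

lemma MM_inner (S T : MM n K) : ⟪S, T⟫_ℂ = ∑ i, ∑ j, ⟪S (i, j), T (i, j)⟫_ℂ := by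
  rw [PiLp.inner_apply, Fintype.sum_prod_type]

lemma MM_ext {S T : MM n K} (h : ∀ i j, S (i, j) = T (i, j)) : S = T := by
  apply PiLp.ext
  rintro ⟨i, j⟩
  exact h i j

lemma inner_sgl (i j : Fin n) (x : K) (T : MM n K) : ⟪sgl i j x, T⟫_ℂ = ⟪x, T (i, j)⟫_ℂ := by
  rw [MM_inner, Finset.sum_eq_single i, Finset.sum_eq_single j]
  · rw [sgl_apply]; simp
  · intro b _ hb
    rw [sgl_apply]; simp [hb]
  · simp
  · intro b _ hb
    apply Finset.sum_eq_zero
    intro c _
    rw [sgl_apply]; simp [hb]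
  · simp

lemma MM_sum_apply {ι : Type*} (s : Finset ι) (f : ι → MM n K) (p : Fin n × Fin n) :
    (∑ a ∈ s, f a) p = ∑ a ∈ s, f a p := by
  classical
  induction s using Finset.induction_on with
  | empty => simp
  | insert a s ha ih => rw [Finset.sum_insert ha, Finset.sum_insert ha, PiLp.add_apply, ih]

lemma MM_sum_sgl (T : MM n K) : T = ∑ i, ∑ j, sgl i j (T (i, j)) := by
  apply MM_ext
  intro i j
  rw [MM_sum_apply, Finset.sum_eq_single i, MM_sum_apply, Finset.sum_eq_single j]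
  · rw [sgl_apply]; simp
  · intro b _ hb
    rw [sgl_apply]; simp [Ne.symm hb]
  · simp
  · intro b _ hb
    rw [MM_sum_apply]
    apply Finset.sum_eq_zero
    intro c _
    rw [sgl_apply]; simp [Ne.symm hb]
  · simp

/-- left multiplication by a matrix of operators -/
noncomputable def lmul (S : Fin n → Fin n → (K →L[ℂ] K)) : MM n K →L[ℂ] MM n K :=
  mkMM (fun i j => ∑ k, (S i k) ∘L (prj k j))

/-- right multiplication by a matrix of operators -/
noncomputable def rmul (S : Fin n → Fin n → (K →L[ℂ] K)) : MM n K →L[ℂ] MM n K :=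
  mkMM (fun i j => ∑ k, (S k j) ∘L (prj i k))

lemma lmul_apply (S : Fin n → Fin n → (K →L[ℂ] K)) (T : MM n K) (i j : Fin n) :
    lmul S T (i, j) = ∑ k, S i k (T (k, j)) := by
  unfold lmul
  rw [mkMM_apply, ContinuousLinearMap.sum_apply]
  rfl

lemma rmul_apply (S : Fin n → Fin n → (K →L[ℂ] K)) (T : MM n K) (i j : Fin n) :
    rmul S T (i, j) = ∑ k, S k j (T (i, k)) := by
  unfold rmul
  rw [mkMM_apply, ContinuousLinearMap.sum_apply]
  rfl

lemma lmul_rmul_comm (S R : Fin n → Fin n → (K →L[ℂ] K))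
    (h : ∀ i k l j x, S i k (R l j x) = R l j (S i k x)) (T : MM n K) :
    lmul S (rmul R T) = rmul R (lmul S T) := by
  apply MM_ext
  intro i j
  rw [lmul_apply, rmul_apply]
  simp_rw [rmul_apply, lmul_apply, map_sum]
  rw [Finset.sum_comm]
  refine Finset.sum_congr rfl fun l _ => Finset.sum_congr rfl fun k _ => h _ _ _ _ _

/-- entrywise action of an operator -/
noncomputable def ent (S : K →L[ℂ] K) : MM n K →L[ℂ] MM n K :=
  mkMM (fun i j => S ∘L prj i j)

lemma ent_apply (S : K →L[ℂ] K) (T : MM n K) (i j : Fin n) : ent S T (i, j) = S (T (i, j)) := rfl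

lemma ent_sgl (S : K →L[ℂ] K) (i j : Fin n) (x : K) : ent S (sgl i j x) = sgl i j (S x) := by
  apply MM_ext
  intro a b
  rw [ent_apply, sgl_apply, sgl_apply]
  split_ifs <;> simp

lemma rmul_sgl (S : Fin n → Fin n → (K →L[ℂ] K)) (i k : Fin n) (x : K) (a b : Fin n) :
    rmul S (sgl i k x) (a, b) = if a = i then S k b x else 0 := by
  rw [rmul_apply, Finset.sum_eq_single k]
  · rw [sgl_apply]
    by_cases h : a = i
    · simp [h]
    · simp [h]
  · intro c _ hc
    rw [sgl_apply]; simp [hc]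
  · simp

lemma lmul_sgl (S : Fin n → Fin n → (K →L[ℂ] K)) (k j : Fin n) (x : K) (a b : Fin n) :
    lmul S (sgl k j x) (a, b) = if b = j then S a k x else 0 := by
  rw [lmul_apply, Finset.sum_eq_single k]
  · rw [sgl_apply]
    by_cases h : b = j
    · simp [h]
    · simp [h]
  · intro c _ hc
    rw [sgl_apply]; simp [hc]
  · simp

section pos

variable {E : Type*} [NormedAddCommGroup E] [InnerProductSpace ℂ E] [CompleteSpace E]

lemma isPositive_of_form {T : E →L[ℂ] E} (h : ∀ x, 0 ≤ ⟪T x, x⟫_ℂ) : T.IsPositive := by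
  rw [ContinuousLinearMap.isPositive_iff_complex]
  intro x
  have := h x
  rw [Complex.nonneg_iff] at this
  refine ⟨?_, this.1⟩
  apply Complex.ext
  · simp
  · simpa using this.2

lemma norm_le_of_form {T : E →L[ℂ] E} (C : ℝ) (hC : 0 ≤ C) (h : ∀ x, 0 ≤ ⟪T x, x⟫_ℂ)
    (h2 : ∀ x, ⟪T x, x⟫_ℂ ≤ C * ⟪x, x⟫_ℂ) : ‖T‖ ≤ C := by
  have h1 : T.IsPositive := isPositive_of_form h
  have h3 : 0 ≤ T := by rwa [ContinuousLinearMap.nonneg_iff_isPositive]
  have h4 : T ≤ (C : ℂ) • (1 : E →L[ℂ] E) := by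
    rw [ContinuousLinearMap.le_def]
    apply isPositive_of_form
    intro x
    have := h2 x
    rw [ContinuousLinearMap.sub_apply, inner_sub_left, ContinuousLinearMap.smul_apply,
      inner_smul_left, ContinuousLinearMap.one_apply]
    simpa using this
  have h5 := CStarAlgebra.norm_le_norm_of_nonneg_of_le h3 h4
  refine h5.trans ?_
  calc ‖(C : ℂ) • (1 : E →L[ℂ] E)‖ ≤ ‖(C : ℂ)‖ * ‖(1 : E →L[ℂ] E)‖ := norm_smul_le _ _
    _ ≤ C * 1 := by
      have e1 : ‖(C : ℂ)‖ = C := by simp [abs_of_nonneg hC]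
      rw [e1]
      gcongr
      exact ContinuousLinearMap.norm_id_le
    _ = C := mul_one C

/-- product of commuting positive operators has a nonnegative form -/
lemma form_mul_nonneg {S T : E →L[ℂ] E} (hS : ∀ x, 0 ≤ ⟪S x, x⟫_ℂ) (hT : ∀ x, 0 ≤ ⟪T x, x⟫_ℂ)
    (hc : ∀ x, S (T x) = T (S x)) (x : E) : 0 ≤ ⟪S (T x), x⟫_ℂ := by
  have h1 : 0 ≤ S := by
    rw [ContinuousLinearMap.nonneg_iff_isPositive]; exact isPositive_of_form hS
  have h2 : 0 ≤ T := by
    rw [ContinuousLinearMap.nonneg_iff_isPositive]; exact isPositive_of_form hT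
  have hcc : Commute S T := by
    ext y
    exact hc y
  have h3 : 0 ≤ S * T := Commute.mul_nonneg h1 h2 hcc
  rw [ContinuousLinearMap.nonneg_iff_isPositive] at h3
  have h4 := h3.inner_nonneg_left x
  exact h4

lemma form_selfadj {S : E →L[ℂ] E} (hS : ∀ x, 0 ≤ ⟪S x, x⟫_ℂ) (x y : E) : ⟪S x, y⟫_ℂ = ⟪x, S y⟫_ℂ := by
  have h := (isPositive_of_form hS).isSelfAdjoint
  rw [← ContinuousLinearMap.adjoint_inner_right, ContinuousLinearMap.isSelfAdjoint_iff'.mp h]

end pos

end Run7.h884
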