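import Mathlib

set_option linter.all false

open scoped TensorProduct InnerProductSpace
open UniformSpace

namespace Run7.h884

/-- the Hilbert tensor square of a Hilbert space -/
abbrev HH (H : Type*) [NormedAddCommGroup H] [InnerProductSpace ℂ H] :=
  Completion (H ⊗[ℂ] H)

variable {H : Type*} [NormedAddCommGroup H] [InnerProductSpace ℂ H]

/-- elementary tensors -/
noncomputable def kp (x y : H) : HH H := ((x ⊗ₜ[ℂ] y : H ⊗[ℂ] H) : HH H)

lemma kp_inner (x y z w : H) : ⟪kp x y, kp z w⟫_ℂ = ⟪x, z⟫_ℂ * ⟪y, w⟫_ℂ := by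
  unfold kp
  rw [Completion.inner_coe, TensorProduct.inner_tmul]

lemma kp_norm (x y : H) : ‖kp x y‖ = ‖x‖ * ‖y‖ := by
  unfold kp
  rw [Completion.norm_coe, TensorProduct.norm_tmul]

lemma kp_add_left (x x' y : H) : kp (x + x') y = kp x y + kp x' y := by
  unfold kp
  rw [TensorProduct.add_tmul, Completion.coe_add]

lemma kp_add_right (x y y' : H) : kp x (y + y') = kp x y + kp x y' := by
  unfold kp
  rw [TensorProduct.tmul_add, Completion.coe_add]

lemma kp_smul_left (c : ℂ) (x y : H) : kp (c • x) y = c • kp x y := by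
  unfold kp
  rw [← TensorProduct.smul_tmul', Completion.coe_smul]

lemma kp_smul_right (c : ℂ) (x y : H) : kp x (c • y) = c • kp x y := by
  unfold kp
  rw [TensorProduct.tmul_smul, Completion.coe_smul]

/-- `kp` as a bilinear map -/
noncomputable def kpL : H →ₗ[ℂ] H →ₗ[ℂ] HH H :=
  LinearMap.mk₂ ℂ kp kp_add_left kp_smul_left kp_add_right (fun c x y => kp_smul_right c x y)

@[simp] lemma kpL_apply (x y : H) : kpL x y = kp x y := rfl

lemma kp_sub_left (x x' y : H) : kp (x - x') y = kp x y - kp x' y := by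
  have h : kpL (x - x') y = kpL x y - kpL x' y := by
    rw [map_sub, LinearMap.sub_apply]
  exact h

lemma kp_sub_right (x y y' : H) : kp x (y - y') = kp x y - kp x y' := by
  have h : kpL x (y - y') = kpL x y - kpL x y' := by
    rw [map_sub]
  exact h

lemma dense_ind {S : Set H} (hS : Dense S) {p : H → Prop} (hp : IsClosed {x | p x})
    (h : ∀ x ∈ S, p x) : ∀ x, p x := fun x => (closure_minimal h hp) (hS x)

lemma continuous_kp : Continuous fun p : H × H => kp p.1 p.2 := by
  unfold kp
  exact (Completion.continuous_coe _).comp (TensorProduct.continuous_tmul)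

/-- tensor product of operators -/
noncomputable def tm (S T : H →L[ℂ] H) : HH H →L[ℂ] HH H := (TensorProduct.mapL S T).completion

lemma tm_kp (S T : H →L[ℂ] H) (x y : H) : tm S T (kp x y) = kp (S x) (T y) := by
  unfold tm kp
  rw [ContinuousLinearMap.completion_apply_coe, TensorProduct.mapL_tmul]

/-- two continuous linear maps on `HH H` agreeing on elementary tensors from dense sets agree -/
lemma clm_ext_kp {F : Type*} [NormedAddCommGroup F] [InnerProductSpace ℂ F]
    {f g : HH H →L[ℂ] F} (h : ∀ x y, f (kp x y) = g (kp x y)) : f = g := by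
  ext z
  induction z using Completion.induction_on with
  | hp => exact isClosed_eq f.continuous g.continuous
  | ih z =>
    induction z using TensorProduct.induction_on with
    | zero => rw [Completion.coe_zero, map_zero, map_zero]
    | tmul x y => exact h x y
    | add a b ha hb => rw [Completion.coe_add, map_add, map_add, ha, hb]

lemma tm_mul (S T S' T' : H →L[ℂ] H) : tm S T ∘L tm S' T' = tm (S ∘L S') (T ∘L T') := by
  apply clm_ext_kp
  intro x y
  simp [tm_kp]

lemma tm_add_left (S S' T : H →L[ℂ] H) : tm (S + S') T = tm S T + tm S' T := by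
  apply clm_ext_kp
  intro x y
  simp [tm_kp, kp_add_left]

lemma tm_add_right (S T T' : H →L[ℂ] H) : tm S (T + T') = tm S T + tm S T' := by
  apply clm_ext_kp
  intro x y
  simp [tm_kp, kp_add_right]

lemma tm_smul_left (c : ℂ) (S T : H →L[ℂ] H) : tm (c • S) T = c • tm S T := by
  apply clm_ext_kp
  intro x y
  simp [tm_kp, kp_smul_left]

lemma tm_smul_right (c : ℂ) (S T : H →L[ℂ] H) : tm S (c • T) = c • tm S T := by
  apply clm_ext_kp
  intro x y
  simp [tm_kp, kp_smul_right]

lemma tm_one : tm (1 : H →L[ℂ] H) 1 = 1 := by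
  apply clm_ext_kp
  intro x y
  simp [tm_kp]

lemma ext_inner_kp {z w : HH H} (h : ∀ x y, ⟪kp x y, z⟫_ℂ = ⟪kp x y, w⟫_ℂ) : z = w := by
  have : innerSL ℂ z = innerSL ℂ w := by
    apply clm_ext_kp
    intro x y
    have := h x y
    simp only [innerSL_apply_apply]
    rw [← inner_conj_symm, this, inner_conj_symm]
  have h2 : ∀ v, ⟪z, v⟫_ℂ = ⟪w, v⟫_ℂ := fun v => by
    have := congrArg (fun f => f v) this
    simpa using this
  exact ext_inner_right ℂ h2

/-- density: a vector orthogonal to all elementary tensors of dense families vanishes -/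
lemma eq_of_inner_dense {ι : Type*} (e : ι → H) (he : Dense (Submodule.span ℂ (Set.range e) : Set H))
    {z w : HH H} (h : ∀ i j, ⟪kp (e i) (e j), z⟫_ℂ = ⟪kp (e i) (e j), w⟫_ℂ) : z = w := by
  apply ext_inner_kp
  intro x y
  -- first extend in y for fixed e i
  have h1 : ∀ i (y : H), ⟪kp (e i) y, z⟫_ℂ = ⟪kp (e i) y, w⟫_ℂ := by
    intro i y
    refine dense_ind he (p := fun y => ⟪kp (e i) y, z⟫_ℂ = ⟪kp (e i) y, w⟫_ℂ) ?_ ?_ y
    · apply isClosed_eq
      · exact (continuous_kp.comp (by fun_prop : Continuous fun y : H => (e i, y))).inner continuous_const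
      · exact (continuous_kp.comp (by fun_prop : Continuous fun y : H => (e i, y))).inner continuous_const
    · intro y hy
      refine Submodule.span_induction (p := fun y _ => ⟪kp (e i) y, z⟫_ℂ = ⟪kp (e i) y, w⟫_ℂ)
        ?_ ?_ ?_ ?_ hy
      · rintro _ ⟨j, rfl⟩
        exact h i j
      · have : kp (e i) (0 : H) = 0 := by
          have := kp_smul_right 0 (e i) (0 : H)
          simpa using this
        simp [this]
      · intro a b _ _ ha hb
        rw [kp_add_right, inner_add_left, inner_add_left, ha, hb]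
      · intro c a _ ha
        rw [kp_smul_right, inner_smul_left, inner_smul_left, ha]
  refine dense_ind he (p := fun x => ⟪kp x y, z⟫_ℂ = ⟪kp x y, w⟫_ℂ) ?_ ?_ x
  · apply isClosed_eq
    · exact (continuous_kp.comp (by fun_prop : Continuous fun x : H => (x, y))).inner continuous_const
    · exact (continuous_kp.comp (by fun_prop : Continuous fun x : H => (x, y))).inner continuous_const
  · intro x hx
    refine Submodule.span_induction (p := fun x _ => ⟪kp x y, z⟫_ℂ = ⟪kp x y, w⟫_ℂ)
      ?_ ?_ ?_ ?_ hx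
    · rintro _ ⟨j, rfl⟩
      exact h1 j y
    · have : kp (0 : H) y = 0 := by
        have := kp_smul_left 0 (0 : H) y
        simpa using this
      simp [this]
    · intro a b _ _ ha hb
      rw [kp_add_left, inner_add_left, inner_add_left, ha, hb]
    · intro c a _ ha
      rw [kp_smul_left, inner_smul_left, inner_smul_left, ha]

variable [CompleteSpace H]

lemma tm_adjoint_inner (S T : H →L[ℂ] H) (z w : HH H) :
    ⟪tm S T z, w⟫_ℂ = ⟪z, tm S.adjoint T.adjoint w⟫_ℂ := by
  have key : ∀ (x y : H) (w : HH H), ⟪w, tm S T (kp x y)⟫_ℂ = ⟪tm S.adjoint T.adjoint w, kp x y⟫_ℂ := by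
    intro x y w
    have e : (innerSL ℂ (tm S T (kp x y))) = (innerSL ℂ (kp x y)) ∘L (tm S.adjoint T.adjoint) := by
      apply clm_ext_kp
      intro a b
      simp only [innerSL_apply_apply, ContinuousLinearMap.comp_apply, tm_kp, kp_inner,
        ContinuousLinearMap.adjoint_inner_right]
    have := congrArg (fun f => f w) e
    simp only [innerSL_apply_apply, ContinuousLinearMap.comp_apply] at this
    rw [← inner_conj_symm, this, inner_conj_symm]
  have e2 : (innerSL ℂ w) ∘L (tm S T) = innerSL ℂ (tm S.adjoint T.adjoint w) := by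
    apply clm_ext_kp
    intro x y
    simp only [innerSL_apply_apply, ContinuousLinearMap.comp_apply]
    exact key x y w
  have := congrArg (fun f => f z) e2
  simp only [innerSL_apply_apply, ContinuousLinearMap.comp_apply] at this
  rw [← inner_conj_symm, this, inner_conj_symm]

lemma tm_adjoint (S T : H →L[ℂ] H) : (tm S T).adjoint = tm S.adjoint T.adjoint := by
  symm
  rw [ContinuousLinearMap.eq_adjoint_iff]
  intro z w
  rw [← inner_conj_symm, ← tm_adjoint_inner, inner_conj_symm]

/-- unitary on the tensor square induced by a unitary -/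
noncomputable def uu (U : H ≃ₗᵢ[ℂ] H) : HH H →L[ℂ] HH H :=
  tm (U : H →L[ℂ] H) (U : H →L[ℂ] H)

lemma uu_kp (U : H ≃ₗᵢ[ℂ] H) (x y : H) : uu U (kp x y) = kp (U x) (U y) := by
  unfold uu
  rw [tm_kp]
  rfl

lemma uu_inner (U : H ≃ₗᵢ[ℂ] H) (z w : HH H) : ⟪uu U z, w⟫_ℂ = ⟪z, uu U.symm w⟫_ℂ := by
  unfold uu
  rw [tm_adjoint_inner]
  rw [LinearIsometryEquiv.adjoint_eq_symm]

lemma uu_symm_comp (U : H ≃ₗᵢ[ℂ] H) (z : HH H) : uu U.symm (uu U z) = z := by
  have : uu U.symm ∘L uu U = 1 := by
    apply clm_ext_kp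
    intro x y
    simp [uu_kp]
  have := congrArg (fun f => f z) this
  simpa using this

lemma uu_comp_symm (U : H ≃ₗᵢ[ℂ] H) (z : HH H) : uu U (uu U.symm z) = z := by
  have : uu U ∘L uu U.symm = 1 := by
    apply clm_ext_kp
    intro x y
    simp [uu_kp]
  have := congrArg (fun f => f z) this
  simpa using this

end Run7.h884
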