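import Mathlib

set_option linter.all false

open scoped InnerProductSpace Topology
open Filter

namespace Run7.h884

lemma exists_ultra_lim (U : Ultrafilter ℕ) (f : ℕ → ℂ) (C : ℝ) (h : ∀ m, ‖f m‖ ≤ C) :
    ∃ z : ℂ, Tendsto f U (𝓝 z) ∧ ‖z‖ ≤ C := by
  have hK : IsCompact (Metric.closedBall (0 : ℂ) C) := isCompact_closedBall 0 C
  obtain ⟨z, hz, hz2⟩ := hK.ultrafilter_le_nhds' (U.map f) (by
    rw [Ultrafilter.mem_map]
    apply Filter.univ_mem'
    intro m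
    simpa using h m)
  refine ⟨z, hz2, ?_⟩
  simpa using hz

/-- weak operator limit along an ultrafilter of a bounded sequence of operators -/
theorem exists_ultra_op {E : Type*} [NormedAddCommGroup E] [InnerProductSpace ℂ E]
    [CompleteSpace E] (U : Ultrafilter ℕ) (B : ℕ → E →L[ℂ] E) (C : ℝ) (hB : ∀ m, ‖B m‖ ≤ C) :
    ∃ T : E →L[ℂ] E, ∀ x y, Tendsto (fun m => ⟪B m x, y⟫_ℂ) U (𝓝 ⟪T x, y⟫_ℂ) := by
  have hb : ∀ x y m, ‖⟪B m x, y⟫_ℂ‖ ≤ C * ‖x‖ * ‖y‖ := by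
    intro x y m
    calc ‖⟪B m x, y⟫_ℂ‖ ≤ ‖B m x‖ * ‖y‖ := norm_inner_le_norm _ _
      _ ≤ (‖B m‖ * ‖x‖) * ‖y‖ := by gcongr; exact (B m).le_opNorm x
      _ ≤ C * ‖x‖ * ‖y‖ := by gcongr; exact hB m
  have hex : ∀ x y, ∃ z : ℂ, Tendsto (fun m => ⟪B m x, y⟫_ℂ) U (𝓝 z) ∧ ‖z‖ ≤ C * ‖x‖ * ‖y‖ :=
    fun x y => exists_ultra_lim U _ _ (hb x y)
  choose φ hφ hφn using hex
  have hadd1 : ∀ x x' y, φ (x + x') y = φ x y + φ x' y := by
    intro x x' y
    have h1 := (hφ x y).add (hφ x' y)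
    refine tendsto_nhds_unique (hφ (x + x') y) ?_
    refine h1.congr ?_
    intro m
    rw [map_add, inner_add_left]
  have hadd2 : ∀ x y y', φ x (y + y') = φ x y + φ x y' := by
    intro x y y'
    have h1 := (hφ x y).add (hφ x y')
    refine tendsto_nhds_unique (hφ x (y + y')) ?_
    refine h1.congr ?_
    intro m
    rw [inner_add_right]
  have hs1 : ∀ (c : ℂ) x y, φ (c • x) y = (starRingEnd ℂ c) • φ x y := by
    intro c x y
    have h1 := (hφ x y).const_smul (starRingEnd ℂ c)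
    refine tendsto_nhds_unique (hφ (c • x) y) ?_
    refine h1.congr ?_
    intro m
    rw [map_smul, inner_smul_left]
    rfl
  have hs2 : ∀ (c : ℂ) x y, φ x (c • y) = (RingHom.id ℂ c) • φ x y := by
    intro c x y
    have h1 := (hφ x y).const_smul c
    refine tendsto_nhds_unique (hφ x (c • y)) ?_
    refine h1.congr ?_
    intro m
    rw [inner_smul_right]
    rfl
  let Φ : E →ₛₗ[starRingEnd ℂ] E →ₗ[ℂ] ℂ := LinearMap.mk₂'ₛₗ (starRingEnd ℂ) (RingHom.id ℂ) φ hadd1 hs1 hadd2 hs2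
  have hC : 0 ≤ C := le_trans (norm_nonneg _) (hB 0)
  let Ψ : E →L⋆[ℂ] E →L[ℂ] ℂ := LinearMap.mkContinuous₂ Φ C (fun x y => hφn x y)
  refine ⟨InnerProductSpace.continuousLinearMapOfBilin Ψ, ?_⟩
  intro x y
  rw [InnerProductSpace.continuousLinearMapOfBilin_apply]
  exact hφ x y

end Run7.h884
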