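import Mathlib
import Pool.Agent.Run7.h884.Defs
import Pool.Agent.Run7.h884.Tens
import Pool.Agent.Run7.h884.Mat
import Pool.Agent.Run7.h884.Ultra

set_option linter.all false

open scoped InnerProductSpace Topology ComplexOrder
open Filter

namespace Run7.h884

variable {A : Type*} [CStarAlgebra A] [PartialOrder A] [StarOrderedRing A]

/-- a tracial state represented on its `L²`-space with left and right multiplications -/
structure TRep (τ : A →ₚ[ℂ] ℂ) (H : Type*) [NormedAddCommGroup H] [InnerProductSpace ℂ H] where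
  ι : A →ₗ[ℂ] H
  L : A → (H →L[ℂ] H)
  R : A → (H →L[ℂ] H)
  inner_ι : ∀ a b, ⟪ι a, ι b⟫_ℂ = τ (star a * b)
  L_ι : ∀ a b, L a (ι b) = ι (a * b)
  R_ι : ∀ a b, R a (ι b) = ι (b * a)
  dense_ι : DenseRange ι
  tr : ∀ a b : A, τ (a * b) = τ (b * a)
  one : τ 1 = 1

namespace TRep

variable {τ : A →ₚ[ℂ] ℂ} {H : Type*} [NormedAddCommGroup H] [InnerProductSpace ℂ H]
variable (r : TRep τ H)

include r in
lemma ext_ι {F : Type*} [NormedAddCommGroup F] [InnerProductSpace ℂ F] {f g : H →L[ℂ] F}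
    (h : ∀ a, f (r.ι a) = g (r.ι a)) : f = g := by
  ext x
  exact isClosed_property r.dense_ι (isClosed_eq f.continuous g.continuous) h x

lemma ext_inner {x y : H} (h : ∀ a, ⟪r.ι a, x⟫_ℂ = ⟪r.ι a, y⟫_ℂ) : x = y := by
  apply ext_inner_left ℂ
  intro v
  exact isClosed_property r.dense_ι (p := fun v => ⟪v, x⟫_ℂ = ⟪v, y⟫_ℂ)
    (isClosed_eq (by fun_prop) (by fun_prop)) h v

lemma L_R (a b : A) (x : H) : r.L a (r.R b x) = r.R b (r.L a x) := by
  have : r.L a ∘L r.R b = r.R b ∘L r.L a := by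
    apply r.ext_ι
    intro c
    simp only [ContinuousLinearMap.comp_apply, r.L_ι, r.R_ι, mul_assoc]
  exact congrArg (fun f => f x) this

lemma L_mul (a b : A) : r.L (a * b) = r.L a ∘L r.L b := by
  apply r.ext_ι
  intro c
  simp only [ContinuousLinearMap.comp_apply, r.L_ι, mul_assoc]

lemma R_mul (a b : A) : r.R (a * b) = r.R b ∘L r.R a := by
  apply r.ext_ι
  intro c
  simp only [ContinuousLinearMap.comp_apply, r.R_ι, mul_assoc]

lemma L_one : r.L 1 = 1 := by
  apply r.ext_ι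
  intro c
  simp [r.L_ι]

lemma R_one : r.R 1 = 1 := by
  apply r.ext_ι
  intro c
  simp [r.R_ι]

lemma L_adj (a : A) (x y : H) : ⟪r.L a x, y⟫_ℂ = ⟪x, r.L (star a) y⟫_ℂ := by
  have h1 : ∀ b c, ⟪r.L a (r.ι b), r.ι c⟫_ℂ = ⟪r.ι b, r.L (star a) (r.ι c)⟫_ℂ := by
    intro b c
    rw [r.L_ι, r.L_ι, r.inner_ι, r.inner_ι, star_mul, mul_assoc]
  have h2 : ∀ b y, ⟪r.L a (r.ι b), y⟫_ℂ = ⟪r.ι b, r.L (star a) y⟫_ℂ := by
    intro b y
    exact isClosed_property r.dense_ι
      (p := fun y => ⟪r.L a (r.ι b), y⟫_ℂ = ⟪r.ι b, r.L (star a) y⟫_ℂ)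
      (isClosed_eq (by fun_prop) (by fun_prop)) (h1 b) y
  exact isClosed_property r.dense_ι
      (p := fun x => ⟪r.L a x, y⟫_ℂ = ⟪x, r.L (star a) y⟫_ℂ)
      (isClosed_eq (by fun_prop) (by fun_prop)) (fun b => h2 b y) x

lemma R_adj (a : A) (x y : H) : ⟪r.R a x, y⟫_ℂ = ⟪x, r.R (star a) y⟫_ℂ := by
  have h1 : ∀ b c, ⟪r.R a (r.ι b), r.ι c⟫_ℂ = ⟪r.ι b, r.R (star a) (r.ι c)⟫_ℂ := by
    intro b c
    rw [r.R_ι, r.R_ι, r.inner_ι, r.inner_ι, star_mul, mul_assoc, r.tr, mul_assoc]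
  have h2 : ∀ b y, ⟪r.R a (r.ι b), y⟫_ℂ = ⟪r.ι b, r.R (star a) y⟫_ℂ := by
    intro b y
    exact isClosed_property r.dense_ι
      (p := fun y => ⟪r.R a (r.ι b), y⟫_ℂ = ⟪r.ι b, r.R (star a) y⟫_ℂ)
      (isClosed_eq (by fun_prop) (by fun_prop)) (h1 b) y
  exact isClosed_property r.dense_ι
      (p := fun x => ⟪r.R a x, y⟫_ℂ = ⟪x, r.R (star a) y⟫_ℂ)
      (isClosed_eq (by fun_prop) (by fun_prop)) (fun b => h2 b y) x

/-- `L²(τ ⊗ τ)` vector of a tensor polynomial -/
noncomputable def evT {n : ℕ} (X : Fin n → A) : NCTensor n →ₗ[ℂ] HH H :=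
  Finsupp.linearCombination ℂ (fun p : Word n × Word n =>
    kp (r.ι (wordEval X p.1)) (r.ι (wordEval X p.2)))

/-- left multiplication by a tensor polynomial -/
noncomputable def opL {n : ℕ} (X : Fin n → A) : NCTensor n →ₗ[ℂ] (HH H →L[ℂ] HH H) :=
  Finsupp.linearCombination ℂ (fun p : Word n × Word n =>
    tm (r.L (wordEval X p.1)) (r.R (wordEval X p.2)))

/-- right multiplication by a tensor polynomial -/
noncomputable def opR {n : ℕ} (X : Fin n → A) : NCTensor n →ₗ[ℂ] (HH H →L[ℂ] HH H) :=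
  Finsupp.linearCombination ℂ (fun p : Word n × Word n =>
    tm (r.R (wordEval X p.1)) (r.L (wordEval X p.2)))

lemma opL_apply {n : ℕ} (X : Fin n → A) (T : NCTensor n) (z : HH H) :
    r.opL X T z = T.sum fun p c => c • tm (r.L (wordEval X p.1)) (r.R (wordEval X p.2)) z := by
  unfold opL
  rw [Finsupp.linearCombination_apply, Finsupp.sum, Finsupp.sum, ContinuousLinearMap.sum_apply]
  rfl

lemma opR_apply {n : ℕ} (X : Fin n → A) (T : NCTensor n) (z : HH H) :
    r.opR X T z = T.sum fun p c => c • tm (r.R (wordEval X p.1)) (r.L (wordEval X p.2)) z := by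
  unfold opR
  rw [Finsupp.linearCombination_apply, Finsupp.sum, Finsupp.sum, ContinuousLinearMap.sum_apply]
  rfl

lemma opL_one {n : ℕ} (X : Fin n → A) (T : NCTensor n) :
    r.opL X T (kp (r.ι 1) (r.ι 1)) = r.evT X T := by
  rw [opL_apply]
  unfold evT
  rw [Finsupp.linearCombination_apply]
  refine Finsupp.sum_congr fun p _ => ?_
  rw [tm_kp, r.L_ι, r.R_ι, mul_one, one_mul]

lemma opR_one {n : ℕ} (X : Fin n → A) (T : NCTensor n) :
    r.opR X T (kp (r.ι 1) (r.ι 1)) = r.evT X T := by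
  rw [opR_apply]
  unfold evT
  rw [Finsupp.linearCombination_apply]
  refine Finsupp.sum_congr fun p _ => ?_
  rw [tm_kp, r.L_ι, r.R_ι, mul_one, one_mul]

/-- a bounded operator commuting with all elementary right multiplications commutes with `opR` -/
lemma comm_opR {n : ℕ} (X : Fin n → A) (T : NCTensor n) (B : HH H →L[ℂ] HH H)
    (h : ∀ (u v : Word n) z, B (tm (r.R (wordEval X u)) (r.L (wordEval X v)) z) =
      tm (r.R (wordEval X u)) (r.L (wordEval X v)) (B z)) (z : HH H) :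
    B (r.opR X T z) = r.opR X T (B z) := by
  rw [opR_apply, opR_apply, Finsupp.sum, Finsupp.sum, map_sum]
  refine Finset.sum_congr rfl fun p _ => ?_
  rw [map_smul, h]

lemma comm_opL {n : ℕ} (X : Fin n → A) (T : NCTensor n) (B : HH H →L[ℂ] HH H)
    (h : ∀ (u v : Word n) z, B (tm (r.L (wordEval X u)) (r.R (wordEval X v)) z) =
      tm (r.L (wordEval X u)) (r.R (wordEval X v)) (B z)) (z : HH H) :
    B (r.opL X T z) = r.opL X T (B z) := by
  rw [opL_apply, opL_apply, Finsupp.sum, Finsupp.sum, map_sum]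
  refine Finset.sum_congr rfl fun p _ => ?_
  rw [map_smul, h]

lemma tm_comm {S T S' T' : H →L[ℂ] H} (h1 : ∀ x, S (S' x) = S' (S x))
    (h2 : ∀ x, T (T' x) = T' (T x)) (z : HH H) : tm S T (tm S' T' z) = tm S' T' (tm S T z) := by
  have : tm S T ∘L tm S' T' = tm S' T' ∘L tm S T := by
    apply clm_ext_kp
    intro x y
    simp only [ContinuousLinearMap.comp_apply, tm_kp, h1, h2]
  exact congrArg (fun f => f z) this

lemma tmLR_opR {n : ℕ} (X : Fin n → A) (T : NCTensor n) (a b : A) (z : HH H) :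
    tm (r.L a) (r.R b) (r.opR X T z) = r.opR X T (tm (r.L a) (r.R b) z) := by
  apply r.comm_opR
  intro u v z
  exact tm_comm (fun x => r.L_R _ _ _) (fun x => (r.L_R _ _ _).symm) z

lemma tmRL_opL {n : ℕ} (X : Fin n → A) (T : NCTensor n) (a b : A) (z : HH H) :
    tm (r.R a) (r.L b) (r.opL X T z) = r.opL X T (tm (r.R a) (r.L b) z) := by
  apply r.comm_opL
  intro u v z
  exact tm_comm (fun x => (r.L_R _ _ _).symm) (fun x => r.L_R _ _ _) z

lemma opL_opR {n : ℕ} (X : Fin n → A) (S T : NCTensor n) (z : HH H) :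
    r.opL X S (r.opR X T z) = r.opR X T (r.opL X S z) := by
  apply r.comm_opR
  intro u v z
  exact (r.tmRL_opL X S _ _ z).symm

/-- Hessian, acting by left multiplication on matrices -/
noncomputable def lJ {n : ℕ} (X : Fin n → A) (g : NCPoly n) : MM n (HH H) →L[ℂ] MM n (HH H) :=
  lmul (fun i k => r.opL X (freeDiff k (cyclicDiff i g)))

/-- Hessian, acting by right multiplication on matrices -/
noncomputable def rJ {n : ℕ} (X : Fin n → A) (g : NCPoly n) : MM n (HH H) →L[ℂ] MM n (HH H) :=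
  rmul (fun k j => r.opR X (freeDiff j (cyclicDiff k g)))

/-- identity matrix vector -/
noncomputable def oneM (n : ℕ) : MM n (HH H) := ∑ i, sgl i i (kp (r.ι 1) (r.ι 1))

lemma oneM_apply (n : ℕ) (i j : Fin n) :
    r.oneM n (i, j) = if i = j then kp (r.ι 1) (r.ι 1) else 0 := by
  unfold oneM
  rw [MM_sum_apply]
  simp_rw [sgl_apply]
  by_cases h : i = j
  · subst h
    simp
  · rw [if_neg h]
    apply Finset.sum_eq_zero
    intro k _
    rw [if_neg]
    rintro ⟨rfl, rfl⟩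
    exact h rfl

lemma lJ_oneM {n : ℕ} (X : Fin n → A) (g : NCPoly n) : r.lJ X g (r.oneM n) = r.rJ X g (r.oneM n) := by
  apply MM_ext
  intro i j
  unfold lJ rJ
  rw [lmul_apply, rmul_apply, Finset.sum_eq_single j, Finset.sum_eq_single i]
  · simp only [oneM_apply, if_true]
    rw [opL_one, opR_one]
  · intro b _ hb
    rw [oneM_apply, if_neg (Ne.symm hb), map_zero]
  · simp
  · intro b _ hb
    rw [oneM_apply, if_neg hb, map_zero]
  · simp

lemma lJ_rJ {n : ℕ} (X : Fin n → A) (g g' : NCPoly n) (T : MM n (HH H)) :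
    r.lJ X g (r.rJ X g' T) = r.rJ X g' (r.lJ X g T) := by
  apply lmul_rmul_comm
  intro i k l j x
  exact r.opL_opR _ _ _ _

/-- entrywise left multiplication by `a ⊗ b` commutes with `rJ` -/
lemma ent_rJ {n : ℕ} (X : Fin n → A) (g : NCPoly n) (a b : A) (T : MM n (HH H)) :
    ent (tm (r.L a) (r.R b)) (r.rJ X g T) = r.rJ X g (ent (tm (r.L a) (r.R b)) T) := by
  apply MM_ext
  intro i j
  unfold rJ
  rw [ent_apply, rmul_apply, rmul_apply, map_sum]
  refine Finset.sum_congr rfl fun k _ => ?_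
  rw [r.tmLR_opR]
  rfl

end TRep

end Run7.h884
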