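import Mathlib
import Pool.Agent.Run7.h884.Rep

set_option linter.all false

open scoped InnerProductSpace Topology ComplexOrder TensorProduct
open Filter UniformSpace

namespace Run7.h884

variable {A : Type*} [CStarAlgebra A] [PartialOrder A] [StarOrderedRing A]

lemma sum4 {ι κ : Type*} [Fintype ι] [Fintype κ] (f : κ → κ → ι → ι → ℂ) :
    ∑ i, ∑ j, ∑ k, ∑ l, f k l i j = ∑ k, ∑ l, ∑ i, ∑ j, f k l i j := by
  calc ∑ i, ∑ j, ∑ k, ∑ l, f k l i j = ∑ i, ∑ k, ∑ j, ∑ l, f k l i j :=
        Finset.sum_congr rfl fun i _ => Finset.sum_comm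
    _ = ∑ k, ∑ i, ∑ j, ∑ l, f k l i j := Finset.sum_comm
    _ = ∑ k, ∑ i, ∑ l, ∑ j, f k l i j :=
        Finset.sum_congr rfl fun k _ => Finset.sum_congr rfl fun i _ => Finset.sum_comm
    _ = ∑ k, ∑ l, ∑ i, ∑ j, f k l i j := Finset.sum_congr rfl fun k _ => Finset.sum_comm

lemma sum3 {ι κ : Type*} [Fintype ι] [Fintype κ] (f : κ → κ → ι → ℂ) :
    ∑ i, ∑ k, ∑ l, f k l i = ∑ k, ∑ l, ∑ i, f k l i := by
  calc ∑ i, ∑ k, ∑ l, f k l i = ∑ k, ∑ i, ∑ l, f k l i := Finset.sum_comm
    _ = ∑ k, ∑ l, ∑ i, f k l i := Finset.sum_congr rfl fun k _ => Finset.sum_comm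

namespace TRep

variable {τ : A →ₚ[ℂ] ℂ} {H : Type*} [NormedAddCommGroup H] [InnerProductSpace ℂ H]
variable (r : TRep τ H) {n : ℕ}

lemma inner_kk (a b c d : A) : ⟪kp (r.ι a) (r.ι b), kp (r.ι c) (r.ι d)⟫_ℂ =
    τ (star a * c) * τ (star b * d) := by
  rw [kp_inner, r.inner_ι, r.inner_ι]

lemma inner_opL (X : Fin n → A) (T : NCTensor n) (a b c d : A) :
    ⟪kp (r.ι a) (r.ι b), r.opL X T (kp (r.ι c) (r.ι d))⟫_ℂ =
      T.sum fun w e => e * (τ (star a * (wordEval X w.1 * c)) * τ (star b * (d * wordEval X w.2))) := by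
  rw [opL_apply, Finsupp.sum, Finsupp.sum, inner_sum]
  refine Finset.sum_congr rfl fun w _ => ?_
  rw [inner_smul_right, tm_kp, r.L_ι, r.R_ι, inner_kk]

lemma inner_opR (X : Fin n → A) (T : NCTensor n) (a b c d : A) :
    ⟪kp (r.ι a) (r.ι b), r.opR X T (kp (r.ι c) (r.ι d))⟫_ℂ =
      T.sum fun w e => e * (τ (star a * (c * wordEval X w.1)) * τ (star b * (wordEval X w.2 * d))) := by
  rw [opR_apply, Finsupp.sum, Finsupp.sum, inner_sum]
  refine Finset.sum_congr rfl fun w _ => ?_
  rw [inner_smul_right, tm_kp, r.L_ι, r.R_ι, inner_kk]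

/-- algebraic column vectors -/
noncomputable def col {m : ℕ} (p q : Fin m → Fin n → A) : Fin n → HH H :=
  fun i => ∑ k, kp (r.ι (p k i)) (r.ι (q k i))

lemma form_col (X : Fin n → A) (g : NCPoly n) {m : ℕ} (p q : Fin m → Fin n → A) :
    ∑ i, ∑ j, ⟪r.col p q i, r.opL X (freeDiff j (cyclicDiff i g)) (r.col p q j)⟫_ℂ =
      hessianForm τ X g p q := by
  unfold hessianForm
  rw [← sum4]
  refine Finset.sum_congr rfl fun i _ => Finset.sum_congr rfl fun j _ => ?_
  unfold col
  rw [map_sum, sum_inner]
  refine Finset.sum_congr rfl fun k _ => ?_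
  rw [inner_sum]
  refine Finset.sum_congr rfl fun l _ => ?_
  rw [inner_opL]

lemma form_row (X : Fin n → A) (g : NCPoly n) {m : ℕ} (p q : Fin m → Fin n → A) :
    ∑ i, ∑ j, ⟪r.col p q j, r.opR X (freeDiff j (cyclicDiff i g)) (r.col p q i)⟫_ℂ =
      hessianForm τ X g (fun k i => star (p k i)) (fun k i => star (q k i)) := by
  unfold hessianForm
  rw [← sum4]
  refine Finset.sum_congr rfl fun i _ => Finset.sum_congr rfl fun j _ => ?_
  unfold col
  rw [map_sum, inner_sum]
  refine Finset.sum_congr rfl fun k _ => ?_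
  rw [sum_inner]
  refine Finset.sum_congr rfl fun l _ => ?_
  rw [inner_opR]
  refine Finsupp.sum_congr fun w _ => ?_
  congr 2
  · rw [star_star, r.tr, mul_assoc, r.tr, mul_assoc]
  · rw [star_star]
    rw [r.tr, mul_assoc, r.tr, mul_assoc]

lemma sq_col {m : ℕ} (p q : Fin m → Fin n → A) :
    ∑ i, ⟪r.col p q i, r.col p q i⟫_ℂ = tensorSqNorm τ p q := by
  unfold tensorSqNorm
  rw [← sum3]
  refine Finset.sum_congr rfl fun i _ => ?_
  unfold col
  rw [sum_inner]
  refine Finset.sum_congr rfl fun k _ => ?_
  rw [inner_sum]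
  refine Finset.sum_congr rfl fun l _ => ?_
  rw [inner_kk]

include r in
lemma sq_row {m : ℕ} (p q : Fin m → Fin n → A) :
    tensorSqNorm τ (fun k i => star (p k i)) (fun k i => star (q k i)) = tensorSqNorm τ p q := by
  unfold tensorSqNorm
  rw [Finset.sum_comm]
  refine Finset.sum_congr rfl fun k _ => Finset.sum_congr rfl fun l _ =>
    Finset.sum_congr rfl fun i _ => ?_
  beta_reduce
  rw [star_star, star_star, r.tr, r.tr (q l i)]

/-- the algebraic columns are dense -/
lemma dense_col : Dense {ζ : Fin n → HH H | ∃ (m : ℕ) (p q : Fin m → Fin n → A), ζ = r.col p q} := by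
  let G : AddSubmonoid (Fin n → HH H) :=
    { carrier := {ζ | ∃ (m : ℕ) (p q : Fin m → Fin n → A), ζ = r.col p q}
      zero_mem' := ⟨0, Fin.elim0, Fin.elim0, by
        funext i
        simp [col]⟩
      add_mem' := by
        rintro _ _ ⟨m, p, q, rfl⟩ ⟨m', p', q', rfl⟩
        refine ⟨m + m', Fin.append p p', Fin.append q q', ?_⟩
        funext i
        simp [col, Fin.sum_univ_add] }
  have hG : ∀ i (z : HH H), Pi.single i z ∈ G.topologicalClosure := by
    intro i z
    have hcl : IsClosed {z : HH H | (Pi.single i z : Fin n → HH H) ∈ G.topologicalClosure} := by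
      have hc : Continuous (fun z : HH H => (Pi.single i z : Fin n → HH H)) := by
        apply continuous_pi
        intro j
        by_cases h : j = i
        · subst h
          simp only [Pi.single_eq_same]
          exact continuous_id
        · simp only [Pi.single_eq_of_ne h]
          exact continuous_const
      exact G.isClosed_topologicalClosure.preimage hc
    induction z using Completion.induction_on with
    | hp => exact hcl
    | ih z =>
      induction z using TensorProduct.induction_on with
      | zero =>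
        rw [Completion.coe_zero, Pi.single_zero]
        exact zero_mem _
      | tmul x y =>
        have h1 : ∀ a b : A, (Pi.single i (kp (r.ι a) (r.ι b)) : Fin n → HH H) ∈ G.topologicalClosure := by
          intro a b
          apply G.le_topologicalClosure
          refine ⟨1, fun _ => Pi.single i a, fun _ => Pi.single i b, ?_⟩
          funext j
          by_cases h : j = i
          · subst h
            simp [col]
          · have e : kp (0 : H) (0 : H) = 0 := by
              have := kp_smul_left 0 (0 : H) (0 : H)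
              simpa using this
            simp [col, h, e]
        have h2 : ∀ (a : A) (y : H), (Pi.single i (kp (r.ι a) y) : Fin n → HH H) ∈ G.topologicalClosure := by
          intro a y
          refine isClosed_property r.dense_ι
            (p := fun y => (Pi.single i (kp (r.ι a) y) : Fin n → HH H) ∈ G.topologicalClosure)
            ?_ (h1 a) y
          exact hcl.preimage (continuous_kp.comp (by fun_prop : Continuous fun y : H => (r.ι a, y)))
        have h3 : (Pi.single i (kp x y) : Fin n → HH H) ∈ G.topologicalClosure := by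
          refine isClosed_property r.dense_ι
            (p := fun x => (Pi.single i (kp x y) : Fin n → HH H) ∈ G.topologicalClosure)
            ?_ (fun a => h2 a y) x
          exact hcl.preimage (continuous_kp.comp (by fun_prop : Continuous fun x : H => (x, y)))
        exact h3
      | add a b ha hb =>
        rw [Completion.coe_add, Pi.single_add]
        exact add_mem ha hb
  intro ζ
  have e : ζ = ∑ i, Pi.single i (ζ i) := by
    funext j
    simp
  have : ζ ∈ G.topologicalClosure := by
    rw [e]
    exact sum_mem fun i _ => hG i _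
  exact this

end TRep

end Run7.h884
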