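import Mathlib
import Pool.Agent.Run7.h884.Form

set_option linter.all false

open scoped InnerProductSpace Topology ComplexOrder TensorProduct
open Filter UniformSpace

namespace Run7.h884

variable {A : Type*} [CStarAlgebra A] [PartialOrder A] [StarOrderedRing A]

/-- the positivity and boundedness hypothesis on one polynomial -/
def Bdd {n : ℕ} (τ : A →ₚ[ℂ] ℂ) (X : Fin n → A) (g : NCPoly n) (Λ : ℝ) : Prop :=
  ∀ (m : ℕ) (p q : Fin m → Fin n → A), 0 ≤ hessianForm τ X g p q ∧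
      hessianForm τ X g p q ≤ Λ * tensorSqNorm τ p q

namespace TRep

variable {τ : A →ₚ[ℂ] ℂ} {H : Type*} [NormedAddCommGroup H] [InnerProductSpace ℂ H]
variable (r : TRep τ H) {n : ℕ}

lemma colform_nonneg {X : Fin n → A} {g : NCPoly n} {Λ : ℝ} (h : Bdd τ X g Λ)
    (ξ : Fin n → HH H) :
    0 ≤ ∑ i, ∑ j, ⟪ξ i, r.opL X (freeDiff j (cyclicDiff i g)) (ξ j)⟫_ℂ ∧
    ∑ i, ∑ j, ⟪ξ i, r.opL X (freeDiff j (cyclicDiff i g)) (ξ j)⟫_ℂ ≤ Λ * ∑ i, ⟪ξ i, ξ i⟫_ℂ := by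
  have hc : Continuous fun ξ : Fin n → HH H =>
      ∑ i, ∑ j, ⟪ξ i, r.opL X (freeDiff j (cyclicDiff i g)) (ξ j)⟫_ℂ := by fun_prop
  have hc2 : Continuous fun ξ : Fin n → HH H => (Λ : ℂ) * ∑ i, ⟪ξ i, ξ i⟫_ℂ := by fun_prop
  constructor
  · have hcl : IsClosed {ξ : Fin n → HH H |
      0 ≤ ∑ i, ∑ j, ⟪ξ i, r.opL X (freeDiff j (cyclicDiff i g)) (ξ j)⟫_ℂ} :=
      isClosed_le continuous_const hc
    refine closure_minimal ?_ hcl (r.dense_col ξ)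
    rintro _ ⟨m, p, q, rfl⟩
    rw [Set.mem_setOf_eq]
    rw [r.form_col]
    exact (h m p q).1
  · have hcl : IsClosed {ξ : Fin n → HH H |
      ∑ i, ∑ j, ⟪ξ i, r.opL X (freeDiff j (cyclicDiff i g)) (ξ j)⟫_ℂ ≤ Λ * ∑ i, ⟪ξ i, ξ i⟫_ℂ} :=
      isClosed_le hc hc2
    refine closure_minimal ?_ hcl (r.dense_col ξ)
    rintro _ ⟨m, p, q, rfl⟩
    rw [Set.mem_setOf_eq]
    rw [r.form_col, r.sq_col]
    exact (h m p q).2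

lemma rowform_nonneg {X : Fin n → A} {g : NCPoly n} {Λ : ℝ} (h : Bdd τ X g Λ)
    (ξ : Fin n → HH H) :
    0 ≤ ∑ i, ∑ j, ⟪ξ j, r.opR X (freeDiff j (cyclicDiff i g)) (ξ i)⟫_ℂ ∧
    ∑ i, ∑ j, ⟪ξ j, r.opR X (freeDiff j (cyclicDiff i g)) (ξ i)⟫_ℂ ≤ Λ * ∑ i, ⟪ξ i, ξ i⟫_ℂ := by
  have hc : Continuous fun ξ : Fin n → HH H =>
      ∑ i, ∑ j, ⟪ξ j, r.opR X (freeDiff j (cyclicDiff i g)) (ξ i)⟫_ℂ := by fun_prop
  have hc2 : Continuous fun ξ : Fin n → HH H => (Λ : ℂ) * ∑ i, ⟪ξ i, ξ i⟫_ℂ := by fun_prop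
  constructor
  · have hcl : IsClosed {ξ : Fin n → HH H |
      0 ≤ ∑ i, ∑ j, ⟪ξ j, r.opR X (freeDiff j (cyclicDiff i g)) (ξ i)⟫_ℂ} :=
      isClosed_le continuous_const hc
    refine closure_minimal ?_ hcl (r.dense_col ξ)
    rintro _ ⟨m, p, q, rfl⟩
    rw [Set.mem_setOf_eq]
    rw [r.form_row]
    exact (h m _ _).1
  · have hcl : IsClosed {ξ : Fin n → HH H |
      ∑ i, ∑ j, ⟪ξ j, r.opR X (freeDiff j (cyclicDiff i g)) (ξ i)⟫_ℂ ≤ Λ * ∑ i, ⟪ξ i, ξ i⟫_ℂ} :=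
      isClosed_le hc hc2
    refine closure_minimal ?_ hcl (r.dense_col ξ)
    rintro _ ⟨m, p, q, rfl⟩
    rw [Set.mem_setOf_eq]
    rw [r.form_row, r.sq_col, ← r.sq_row]
    exact (h m _ _).2

lemma conj_of_nonneg {z : ℂ} (h : 0 ≤ z) : (starRingEnd ℂ) z = z :=
  (IsSelfAdjoint.of_nonneg h)

lemma inner_lJ (X : Fin n → A) (g : NCPoly n) (T : MM n (HH H)) :
    ⟪T, r.lJ X g T⟫_ℂ =
      ∑ l, ∑ i, ∑ j, ⟪T (i, l), r.opL X (freeDiff j (cyclicDiff i g)) (T (j, l))⟫_ℂ := by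
  rw [MM_inner, Finset.sum_comm]
  refine Finset.sum_congr rfl fun l _ => Finset.sum_congr rfl fun i _ => ?_
  unfold lJ
  rw [lmul_apply, inner_sum]

lemma inner_rJ (X : Fin n → A) (g : NCPoly n) (T : MM n (HH H)) :
    ⟪T, r.rJ X g T⟫_ℂ =
      ∑ l, ∑ i, ∑ j, ⟪T (l, j), r.opR X (freeDiff j (cyclicDiff i g)) (T (l, i))⟫_ℂ := by
  rw [MM_inner]
  refine Finset.sum_congr rfl fun l _ => ?_
  rw [Finset.sum_comm]
  refine Finset.sum_congr rfl fun j _ => ?_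
  unfold rJ
  rw [rmul_apply, inner_sum]

lemma lJ_nonneg {X : Fin n → A} {g : NCPoly n} {Λ : ℝ} (h : Bdd τ X g Λ) (T : MM n (HH H)) :
    0 ≤ ⟪r.lJ X g T, T⟫_ℂ := by
  have h1 : 0 ≤ ⟪T, r.lJ X g T⟫_ℂ := by
    rw [inner_lJ]
    exact Finset.sum_nonneg fun l _ => (r.colform_nonneg h (fun i => T (i, l))).1
  rw [← inner_conj_symm, conj_of_nonneg h1]
  exact h1

lemma rJ_nonneg {X : Fin n → A} {g : NCPoly n} {Λ : ℝ} (h : Bdd τ X g Λ) (T : MM n (HH H)) :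
    0 ≤ ⟪r.rJ X g T, T⟫_ℂ := by
  have h1 : 0 ≤ ⟪T, r.rJ X g T⟫_ℂ := by
    rw [inner_rJ]
    exact Finset.sum_nonneg fun l _ => (r.rowform_nonneg h (fun i => T (l, i))).1
  rw [← inner_conj_symm, conj_of_nonneg h1]
  exact h1

lemma lJ_le {X : Fin n → A} {g : NCPoly n} {Λ : ℝ} (h : Bdd τ X g Λ) (T : MM n (HH H)) :
    ⟪r.lJ X g T, T⟫_ℂ ≤ Λ * ⟪T, T⟫_ℂ := by
  have h0 := r.lJ_nonneg h T
  have e : ∑ i, ∑ l, ⟪T (i, l), T (i, l)⟫_ℂ = ∑ l, ∑ i, ⟪T (i, l), T (i, l)⟫_ℂ := Finset.sum_comm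
  rw [← conj_of_nonneg h0, inner_conj_symm, inner_lJ, MM_inner, e, Finset.mul_sum]
  exact Finset.sum_le_sum fun l _ => (r.colform_nonneg h (fun i => T (i, l))).2

lemma rJ_le {X : Fin n → A} {g : NCPoly n} {Λ : ℝ} (h : Bdd τ X g Λ) (T : MM n (HH H)) :
    ⟪r.rJ X g T, T⟫_ℂ ≤ Λ * ⟪T, T⟫_ℂ := by
  have h0 := r.rJ_nonneg h T
  rw [← conj_of_nonneg h0, inner_conj_symm, inner_rJ, MM_inner, Finset.mul_sum]
  exact Finset.sum_le_sum fun l _ => (r.rowform_nonneg h (fun i => T (l, i))).2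

variable [CompleteSpace H]

lemma le_abs_mul {E : Type*} [NormedAddCommGroup E] [InnerProductSpace ℂ E] (Λ : ℝ) (T : E) :
    (Λ : ℂ) * ⟪T, T⟫_ℂ ≤ ((|Λ| : ℝ) : ℂ) * ⟪T, T⟫_ℂ := by
  have h1 : (0 : ℂ) ≤ ⟪T, T⟫_ℂ := by
    rw [inner_self_eq_norm_sq_to_K]
    positivity
  apply mul_le_mul_of_nonneg_right _ h1
  exact_mod_cast le_abs_self Λ

lemma lJ_norm {X : Fin n → A} {g : NCPoly n} {Λ : ℝ} (h : Bdd τ X g Λ) : ‖r.lJ X g‖ ≤ |Λ| :=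
  norm_le_of_form |Λ| (abs_nonneg _) (r.lJ_nonneg h) fun T => (r.lJ_le h T).trans (le_abs_mul Λ T)

lemma rJ_norm {X : Fin n → A} {g : NCPoly n} {Λ : ℝ} (h : Bdd τ X g Λ) : ‖r.rJ X g‖ ≤ |Λ| :=
  norm_le_of_form |Λ| (abs_nonneg _) (r.rJ_nonneg h) fun T => (r.rJ_le h T).trans (le_abs_mul Λ T)

end TRep

end Run7.h884
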