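import Mathlib
import Pool.Agent.Run7.h884.Rep

set_option linter.all false

open scoped InnerProductSpace Topology ComplexOrder TensorProduct
open Filter UniformSpace

namespace Run7.h884

variable {A : Type*} [CStarAlgebra A] [PartialOrder A] [StarOrderedRing A]

section words

variable {n : ℕ}

lemma splits_append (j : Fin n) (u v : Word n) :
    splits j (u ++ v) = (splits j u).map (fun p => (p.1, p.2 ++ v)) ++
      (splits j v).map (fun p => (u ++ p.1, p.2)) := by
  induction u with
  | nil => simp [splits]
  | cons i u ih =>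
    simp only [List.cons_append, splits, ih, List.map_append, List.map_map, List.append_assoc]
    congr 1
    by_cases h : i = j <;> simp [h]

lemma splits_single (j i : Fin n) : splits j [i] = if i = j then [([], [])] else [] := by
  simp [splits]

lemma wordEval_nil (Z : Fin n → A) : wordEval Z [] = 1 := rfl

lemma wordEval_cons (Z : Fin n → A) (i : Fin n) (w : Word n) :
    wordEval Z (i :: w) = Z i * wordEval Z w := by simp [wordEval]

lemma wordEval_append (Z : Fin n → A) (u v : Word n) :
    wordEval Z (u ++ v) = wordEval Z u * wordEval Z v := by simp [wordEval]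

lemma wordEval_single (Z : Fin n → A) (i : Fin n) : wordEval Z [i] = Z i := by simp [wordEval]

lemma star_wordEval {Z : Fin n → A} (hZ : ∀ i, star (Z i) = Z i) (w : Word n) :
    star (wordEval Z w) = wordEval Z w.reverse := by
  induction w with
  | nil => simp [wordEval]
  | cons i w ih =>
    rw [wordEval_cons, star_mul, ih, hZ, List.reverse_cons, wordEval_append, wordEval_single]

/-- linear form of `freeDiff` -/
lemma freeDiff_eq (j : Fin n) (P : NCPoly n) :
    freeDiff j P = Finsupp.linearCombination ℂ
      (fun w : Word n => ((splits j w).map fun p => Finsupp.single p (1 : ℂ)).sum) P := by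
  unfold freeDiff
  rw [Finsupp.linearCombination_apply]
  refine Finsupp.sum_congr fun w _ => ?_
  rw [List.smul_sum, List.map_map]
  congr 1
  apply List.map_congr_left
  intro p _
  simp

lemma freeDiff_add (j : Fin n) (P Q : NCPoly n) : freeDiff j (P + Q) = freeDiff j P + freeDiff j Q := by
  rw [freeDiff_eq, freeDiff_eq, freeDiff_eq, map_add]

lemma freeDiff_sub (j : Fin n) (P Q : NCPoly n) : freeDiff j (P - Q) = freeDiff j P - freeDiff j Q := by
  rw [freeDiff_eq, freeDiff_eq, freeDiff_eq, map_sub]

lemma freeDiff_smul (j : Fin n) (c : ℂ) (P : NCPoly n) : freeDiff j (c • P) = c • freeDiff j P := by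
  rw [freeDiff_eq, freeDiff_eq, map_smul]

lemma freeDiff_zero (j : Fin n) : freeDiff j (0 : NCPoly n) = 0 := by
  rw [freeDiff_eq, map_zero]

lemma polyEval_eq (Z : Fin n → A) (P : NCPoly n) :
    polyEval Z P = Finsupp.linearCombination ℂ (wordEval Z) P := by
  rw [Finsupp.linearCombination_apply]; rfl

lemma polyEval_add (Z : Fin n → A) (P Q : NCPoly n) :
    polyEval Z (P + Q) = polyEval Z P + polyEval Z Q := by
  rw [polyEval_eq, polyEval_eq, polyEval_eq, map_add]

lemma polyEval_sub (Z : Fin n → A) (P Q : NCPoly n) :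
    polyEval Z (P - Q) = polyEval Z P - polyEval Z Q := by
  rw [polyEval_eq, polyEval_eq, polyEval_eq, map_sub]

lemma polyEval_smul (Z : Fin n → A) (c : ℂ) (P : NCPoly n) :
    polyEval Z (c • P) = c • polyEval Z P := by
  rw [polyEval_eq, polyEval_eq, map_smul]

lemma polyEval_zero (Z : Fin n → A) : polyEval Z (0 : NCPoly n) = 0 := by
  rw [polyEval_eq, map_zero]

lemma polyEval_single (Z : Fin n → A) (w : Word n) (c : ℂ) :
    polyEval Z (Finsupp.single w c) = c • wordEval Z w := by
  rw [polyEval_eq, Finsupp.linearCombination_single]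

end words

/-- Schwinger-Dyson equation of the semicircular family -/
def SD {n : ℕ} (τ : A →ₚ[ℂ] ℂ) (X : Fin n → A) : Prop :=
  ∀ (j : Fin n) (w : Word n), τ (X j * wordEval X w) =
    ((splits j w).map fun p => τ (wordEval X p.1) * τ (wordEval X p.2)).sum

namespace TRep

variable {τ : A →ₚ[ℂ] ℂ} {H : Type*} [NormedAddCommGroup H] [InnerProductSpace ℂ H]
variable (r : TRep τ H) {n : ℕ}

lemma R_add (a b : A) : r.R (a + b) = r.R a + r.R b := by
  apply r.ext_ι
  intro c
  rw [ContinuousLinearMap.add_apply, r.R_ι, r.R_ι, r.R_ι, mul_add, map_add]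

lemma R_smul (c : ℂ) (a : A) : r.R (c • a) = c • r.R a := by
  apply r.ext_ι
  intro b
  rw [ContinuousLinearMap.smul_apply, r.R_ι, r.R_ι, mul_smul_comm, map_smul]

lemma R_zero : r.R 0 = 0 := by
  apply r.ext_ι
  intro b
  rw [r.R_ι, mul_zero, map_zero, ContinuousLinearMap.zero_apply]

/-- sum over the splittings of a word -/
noncomputable def spl (X : Fin n → A) (j : Fin n) (w : Word n) : HH H :=
  ((splits j w).map fun p => kp (r.ι (wordEval X p.1)) (r.ι (wordEval X p.2))).sum

lemma evT_freeDiff (X : Fin n → A) (j : Fin n) (P : NCPoly n) :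
    r.evT X (freeDiff j P) = Finsupp.linearCombination ℂ (r.spl X j) P := by
  rw [freeDiff_eq, Finsupp.linearCombination_apply, Finsupp.linearCombination_apply, Finsupp.sum,
    Finsupp.sum, map_sum]
  refine Finset.sum_congr rfl fun w _ => ?_
  rw [map_smul]
  congr 1
  unfold spl evT
  rw [map_list_sum, List.map_map]
  congr 1
  apply List.map_congr_left
  intro p _
  simp

lemma spl_nil (X : Fin n → A) (j : Fin n) : r.spl X j [] = 0 := by
  simp [spl, splits]

lemma spl_append_single (X : Fin n → A) (j : Fin n) (w : Word n) (t : Fin n) :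
    r.spl X j (w ++ [t]) = tm 1 (r.R (X t)) (r.spl X j w) +
      (if t = j then kp (r.ι (wordEval X w)) (r.ι 1) else 0) := by
  unfold spl
  rw [splits_append, splits_single, List.map_append, List.sum_append, map_list_sum]
  simp only [List.map_map]
  congr 1
  · congr 1
    apply List.map_congr_left
    intro p _
    simp only [Function.comp_apply, tm_kp, r.R_ι, ContinuousLinearMap.one_apply, wordEval_append,
      wordEval_single]
  · by_cases h : t = j
    · simp [h, wordEval]
    · simp [h]

/-- the vector representing the adjoint of the free difference quotient on `X_u ⊗ X_v` -/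
noncomputable def dv (X : Fin n → A) (j : Fin n) (u v : Word n) : H :=
  r.ι (wordEval X u * (X j * wordEval X v))
    - ((splits j u).map fun p => τ (wordEval X p.2) • r.ι (wordEval X p.1 * wordEval X v)).sum
    - ((splits j v).map fun p => τ (wordEval X p.1) • r.ι (wordEval X u * wordEval X p.2)).sum

lemma R_dv (X : Fin n → A) (j t : Fin n) (u v : Word n) :
    r.R (X t) (r.dv X j u v) = r.dv X j u (v ++ [t]) +
      (if t = j then τ (wordEval X v) • r.ι (wordEval X u) else 0) := by
  unfold dv
  rw [map_sub, map_sub, r.R_ι, map_list_sum, map_list_sum, List.map_map, List.map_map,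
    splits_append, List.map_append, List.sum_append, List.map_map, splits_single]
  have e1 : (wordEval X u * (X j * wordEval X v)) * X t =
      wordEval X u * (X j * wordEval X (v ++ [t])) := by
    rw [wordEval_append, wordEval_single]
    simp only [mul_assoc]
  have e2 : (List.map ((fun x => r.R (X t) x) ∘ fun p => τ (wordEval X p.2) •
      r.ι (wordEval X p.1 * wordEval X v)) (splits j u)) =
      (List.map (fun p => τ (wordEval X p.2) •
        r.ι (wordEval X p.1 * wordEval X (v ++ [t]))) (splits j u)) := by
    apply List.map_congr_left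
    intro p _
    simp only [Function.comp_apply, map_smul, r.R_ι, wordEval_append, wordEval_single, mul_assoc]
  have e3 : (List.map ((fun x => r.R (X t) x) ∘ fun p => τ (wordEval X p.1) •
      r.ι (wordEval X u * wordEval X p.2)) (splits j v)) =
      (List.map ((fun p => τ (wordEval X p.1) • r.ι (wordEval X u * wordEval X p.2)) ∘
        (fun p => (p.1, p.2 ++ [t]))) (splits j v)) := by
    apply List.map_congr_left
    intro p _
    simp only [Function.comp_apply, map_smul, r.R_ι, wordEval_append, wordEval_single, mul_assoc]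
  rw [e1, e2, e3]
  by_cases h : t = j
  · simp [h, wordEval_nil]
    abel
  · simp [h]

lemma inner_one_dv {X : Fin n → A} (hSD : SD τ X) (j : Fin n) (u v : Word n) :
    ⟪r.ι 1, r.dv X j u v⟫_ℂ = 0 := by
  have key : ∀ a, ⟪r.ι 1, r.ι a⟫_ℂ = τ a := by
    intro a
    rw [r.inner_ι, star_one, one_mul]
  have e0 : τ (wordEval X u * (X j * wordEval X v)) = τ (X j * wordEval X (v ++ u)) := by
    rw [r.tr, mul_assoc, wordEval_append]
  unfold dv
  rw [inner_sub_right, inner_sub_right, key, e0, hSD, splits_append, List.map_append,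
    List.sum_append, List.map_map, List.map_map]
  have l1 : ⟪r.ι 1, ((splits j u).map fun p => τ (wordEval X p.2) •
      r.ι (wordEval X p.1 * wordEval X v)).sum⟫_ℂ =
      (List.map ((fun p => τ (wordEval X p.1) * τ (wordEval X p.2)) ∘ fun p => (v ++ p.1, p.2))
        (splits j u)).sum := by
    have := map_list_sum (innerSL ℂ (r.ι 1)) ((splits j u).map fun p => τ (wordEval X p.2) •
      r.ι (wordEval X p.1 * wordEval X v))
    rw [innerSL_apply_apply] at this
    rw [this, List.map_map]
    congr 1
    apply List.map_congr_left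
    intro p _
    simp only [Function.comp_apply, innerSL_apply_apply, inner_smul_right, key, wordEval_append]
    rw [r.tr, mul_comm]
  have l2 : ⟪r.ι 1, ((splits j v).map fun p => τ (wordEval X p.1) •
      r.ι (wordEval X u * wordEval X p.2)).sum⟫_ℂ =
      (List.map ((fun p => τ (wordEval X p.1) * τ (wordEval X p.2)) ∘ fun p => (p.1, p.2 ++ u))
        (splits j v)).sum := by
    have := map_list_sum (innerSL ℂ (r.ι 1)) ((splits j v).map fun p => τ (wordEval X p.1) •
      r.ι (wordEval X u * wordEval X p.2))
    rw [innerSL_apply_apply] at this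
    rw [this, List.map_map]
    congr 1
    apply List.map_congr_left
    intro p _
    simp only [Function.comp_apply, innerSL_apply_apply, inner_smul_right, key, wordEval_append]
    rw [r.tr]
  rw [l1, l2]
  ring

/-- `W` is the weak `j`-th free derivative of `x` -/
def WD (X : Fin n → A) (j : Fin n) (x : H) (W : HH H) : Prop :=
  ∀ u v : Word n, ⟪r.dv X j u v, x⟫_ℂ = ⟪kp (r.ι (wordEval X u)) (r.ι (wordEval X v)), W⟫_ℂ

lemma WD_one {X : Fin n → A} (hSD : SD τ X) (j : Fin n) : r.WD X j (r.ι 1) 0 := by
  intro u v
  rw [inner_zero_right, ← inner_conj_symm, r.inner_one_dv hSD, map_zero]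

lemma WD_add {X : Fin n → A} {j : Fin n} {x y : H} {V W : HH H} (h1 : r.WD X j x V)
    (h2 : r.WD X j y W) : r.WD X j (x + y) (V + W) := by
  intro u v
  rw [inner_add_right, inner_add_right, h1, h2]

lemma WD_smul {X : Fin n → A} {j : Fin n} {x : H} {V : HH H} (c : ℂ) (h1 : r.WD X j x V) :
    r.WD X j (c • x) (c • V) := by
  intro u v
  rw [inner_smul_right, inner_smul_right, h1]

lemma WD_zero (X : Fin n → A) (j : Fin n) : r.WD X j 0 0 := by
  intro u v
  rw [inner_zero_right, inner_zero_right]

variable [CompleteSpace H]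

lemma adjoint_R (a : A) : (r.R a).adjoint = r.R (star a) := by
  symm
  rw [ContinuousLinearMap.eq_adjoint_iff]
  intro x y
  rw [r.R_adj, star_star]

lemma adjoint_L (a : A) : (r.L a).adjoint = r.L (star a) := by
  symm
  rw [ContinuousLinearMap.eq_adjoint_iff]
  intro x y
  rw [r.L_adj, star_star]

lemma tm_LR_adj (a b : A) (z w : HH H) :
    ⟪z, tm (r.L a) (r.R b) w⟫_ℂ = ⟪tm (r.L (star a)) (r.R (star b)) z, w⟫_ℂ := by
  rw [tm_adjoint_inner, adjoint_L, adjoint_R, star_star, star_star]

/-- Leibniz rule, one letter -/
lemma WD_letter {X : Fin n → A} (hX : ∀ i, star (X i) = X i) {j : Fin n} {a : A} {W : HH H}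
    (h : r.WD X j (r.ι a) W) (t : Fin n) :
    r.WD X j (r.ι (a * X t)) (tm 1 (r.R (X t)) W + if t = j then kp (r.ι a) (r.ι 1) else 0) := by
  intro u v
  have e1 : r.ι (a * X t) = r.R (X t) (r.ι a) := by rw [r.R_ι]
  rw [e1]
  have e2 : ⟪r.dv X j u v, r.R (X t) (r.ι a)⟫_ℂ = ⟪r.R (X t) (r.dv X j u v), r.ι a⟫_ℂ := by
    rw [r.R_adj, hX]
  rw [e2, R_dv, inner_add_left, h, inner_add_right]
  congr 1
  · rw [← r.L_one, tm_LR_adj, tm_kp, r.L_ι, r.R_ι, star_one, one_mul, hX, wordEval_append,
      wordEval_single]
  · by_cases h : t = j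
    · simp only [h, if_true]
      rw [inner_smul_left, kp_inner, r.inner_ι (wordEval X v), mul_one, mul_comm]
      congr 1
      exact (map_star τ _).symm
    · simp [h]

/-- Leibniz rule, words -/
lemma WD_word {X : Fin n → A} (hX : ∀ i, star (X i) = X i) {j : Fin n} {a : A} {W : HH H}
    (h : r.WD X j (r.ι a) W) (w : Word n) :
    r.WD X j (r.ι (a * wordEval X w)) (tm 1 (r.R (wordEval X w)) W + tm (r.L a) 1 (r.spl X j w)) := by
  induction w using List.reverseRecOn with
  | nil =>
    rw [spl_nil, map_zero, add_zero, wordEval_nil, mul_one, r.R_one, tm_one]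
    exact h
  | append_singleton w t ih =>
    have h1 := r.WD_letter hX ih t
    rw [wordEval_append, wordEval_single, ← mul_assoc]
    convert h1 using 1
    rw [spl_append_single, map_add, map_add, ← add_assoc]
    congr 1
    · congr 1
      · rw [r.R_mul]
        have := tm_mul (1 : H →L[ℂ] H) (r.R (X t)) 1 (r.R (wordEval X w))
        have h2 := congrArg (fun f => f W) this
        simp only [ContinuousLinearMap.comp_apply] at h2
        rw [h2]
        rfl
      · exact tm_comm (S := (r.L a)) (T := (1 : H →L[ℂ] H)) (S' := (1 : H →L[ℂ] H))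
          (T' := r.R (X t)) (fun x => rfl) (fun x => rfl) _
    · by_cases h : t = j
      · simp only [h, if_true]
        rw [tm_kp, r.L_ι]
        rfl
      · simp [h]

/-- Leibniz rule, polynomials -/
lemma WD_poly {X : Fin n → A} (hX : ∀ i, star (X i) = X i) {j : Fin n} {a : A} {W : HH H}
    (h : r.WD X j (r.ι a) W) (P : NCPoly n) :
    r.WD X j (r.ι (a * polyEval X P))
      (tm 1 (r.R (polyEval X P)) W + tm (r.L a) 1 (r.evT X (freeDiff j P))) := by
  induction P using Finsupp.induction_linear with
  | zero =>
    rw [polyEval_zero, mul_zero, map_zero, r.R_zero, freeDiff_zero, map_zero, map_zero, add_zero]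
    have : tm (1 : H →L[ℂ] H) (0 : H →L[ℂ] H) = 0 := by
      have := tm_smul_right 0 (1 : H →L[ℂ] H) (0 : H →L[ℂ] H)
      simpa using this
    rw [this]
    exact r.WD_zero X j
  | add P Q hP hQ =>
    rw [polyEval_add, mul_add, map_add, r.R_add, tm_add_right, freeDiff_add, map_add, map_add,
      ContinuousLinearMap.add_apply]
    have := r.WD_add hP hQ
    convert this using 1
    abel
  | single w c =>
    have e : (Finsupp.single w c : NCPoly n) = c • Finsupp.single w 1 := by simp
    rw [polyEval_single, mul_smul_comm, map_smul, r.R_smul, tm_smul_right, evT_freeDiff,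
      Finsupp.linearCombination_single, map_smul, ContinuousLinearMap.smul_apply, ← smul_add]
    exact r.WD_smul c (r.WD_word hX h w)

/-- weak derivatives of polynomials -/
lemma WD_polyEval {X : Fin n → A} (hSD : SD τ X) (hX : ∀ i, star (X i) = X i) (j : Fin n)
    (P : NCPoly n) : r.WD X j (r.ι (polyEval X P)) (r.evT X (freeDiff j P)) := by
  have := r.WD_poly hX (r.WD_one hSD j) P
  rw [one_mul, map_zero, zero_add, r.L_one, tm_one] at this
  exact this

end TRep

end Run7.h884
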