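import Mathlib
import Pool.Agent.Run7.h884.WD
import Pool.Agent.Run7.h884.Pos

set_option linter.all false

open scoped InnerProductSpace Topology ComplexOrder TensorProduct
open Filter UniformSpace

namespace Run7.h884

section weak

variable {E : Type*} [NormedAddCommGroup E] [InnerProductSpace ℂ E]

/-- weak operator convergence along an ultrafilter -/
def WLim (U : Ultrafilter ℕ) (B : ℕ → E →L[ℂ] E) (T : E →L[ℂ] E) : Prop :=
  ∀ x y, Tendsto (fun m => ⟪B m x, y⟫_ℂ) U (𝓝 ⟪T x, y⟫_ℂ)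

lemma WLim.right {U : Ultrafilter ℕ} {B : ℕ → E →L[ℂ] E} {T : E →L[ℂ] E} (h : WLim U B T) (x y : E) :
    Tendsto (fun m => ⟪x, B m y⟫_ℂ) U (𝓝 ⟪x, T y⟫_ℂ) := by
  have h1 := (h y x)
  have h2 := (Complex.continuous_conj.tendsto _).comp h1
  have e : (starRingEnd ℂ) ⟪T y, x⟫_ℂ = ⟪x, T y⟫_ℂ := inner_conj_symm _ _
  rw [← e]
  refine h2.congr ?_
  intro m
  exact inner_conj_symm _ _

lemma WLim.comm {U : Ultrafilter ℕ} {B : ℕ → E →L[ℂ] E} {T : E →L[ℂ] E} (h : WLim U B T)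
    {C C' : E →L[ℂ] E} (hC : ∀ x y, ⟪C x, y⟫_ℂ = ⟪x, C' y⟫_ℂ) (hc : ∀ m x, C (B m x) = B m (C x))
    (x : E) : C (T x) = T (C x) := by
  apply ext_inner_right ℂ
  intro y
  have h1 : Tendsto (fun m => ⟪B m (C x), y⟫_ℂ) U (𝓝 ⟪T (C x), y⟫_ℂ) := h (C x) y
  have h2 : Tendsto (fun m => ⟪B m (C x), y⟫_ℂ) U (𝓝 ⟪C (T x), y⟫_ℂ) := by
    rw [hC]
    refine (h x (C' y)).congr ?_
    intro m
    rw [← hC, hc]
  exact tendsto_nhds_unique h2 h1

lemma WLim.nonneg {U : Ultrafilter ℕ} {B : ℕ → E →L[ℂ] E} {T : E →L[ℂ] E} (h : WLim U B T)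
    (hB : ∀ m x, 0 ≤ ⟪B m x, x⟫_ℂ) (x : E) : 0 ≤ ⟪T x, x⟫_ℂ :=
  ge_of_tendsto' (h x x) fun m => hB m x

lemma WLim.eq_of {U : Ultrafilter ℕ} {B B' : ℕ → E →L[ℂ] E} {T T' : E →L[ℂ] E} (h : WLim U B T)
    (h' : WLim U B' T') {x x' : E} (he : ∀ m, B m x = B' m x') : T x = T' x' := by
  apply ext_inner_right ℂ
  intro y
  refine tendsto_nhds_unique (h x y) ?_
  refine (h' x' y).congr ?_
  intro m
  rw [he]

end weak

variable {A : Type*} [CStarAlgebra A] [PartialOrder A] [StarOrderedRing A]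

lemma inner_coord {n : ℕ} {K : Type*} [NormedAddCommGroup K] [InnerProductSpace ℂ K] (T : MM n K)
    (i j : Fin n) (x : K) : ⟪T (i, j), x⟫_ℂ = ⟪T, sgl i j x⟫_ℂ := by
  rw [← inner_conj_symm, ← inner_sgl, inner_conj_symm]

lemma ent_inner {n : ℕ} {K : Type*} [NormedAddCommGroup K] [InnerProductSpace ℂ K]
    {B B' : K →L[ℂ] K} (h : ∀ x y, ⟪B x, y⟫_ℂ = ⟪x, B' y⟫_ℂ) (S T : MM n K) :
    ⟪ent B S, T⟫_ℂ = ⟪S, ent B' T⟫_ℂ := by
  rw [MM_inner, MM_inner]
  refine Finset.sum_congr rfl fun i _ => Finset.sum_congr rfl fun j _ => ?_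
  rw [ent_apply, ent_apply, h]

namespace TRep

variable {τ : A →ₚ[ℂ] ℂ} {H : Type*} [NormedAddCommGroup H] [InnerProductSpace ℂ H] [CompleteSpace H]
variable (r : TRep τ H) {n : ℕ}

/-- the limit Hessian of a Lipschitz monotone tuple -/
structure LimJ (X Y : Fin n → A) (U : Ultrafilter ℕ) where
  Λ : ℝ
  g : ℕ → NCPoly n
  bdd : ∀ m, Bdd τ X (g m) Λ
  conv : ∀ i, Tendsto (fun m => r.ι (polyEval X (cyclicDiff i (g m)))) U (𝓝 (r.ι (Y i)))
  JL : MM n (HH H) →L[ℂ] MM n (HH H)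
  JR : MM n (HH H) →L[ℂ] MM n (HH H)
  limL : WLim U (fun m => r.lJ X (g m)) JL
  limR : WLim U (fun m => r.rJ X (g m)) JR

lemma norm_sub_sq (a b : A) : ‖r.ι a - r.ι b‖ ^ 2 = sqDist τ a b := by
  unfold sqDist
  rw [← map_sub, ← r.inner_ι, inner_self_eq_norm_sq_to_K]
  norm_cast

lemma tendsto_of_sqDist {β : Type*} {l : Filter β} {a : β → A} {b : A}
    (h : Tendsto (fun m => sqDist τ (a m) b) l (𝓝 0)) :
    Tendsto (fun m => r.ι (a m)) l (𝓝 (r.ι b)) := by
  rw [tendsto_iff_norm_sub_tendsto_zero]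
  have h1 : Tendsto (fun m => ‖r.ι (a m) - r.ι b‖ ^ 2) l (𝓝 0) := by
    refine h.congr ?_
    intro m
    rw [r.norm_sub_sq]
  have h2 := h1.sqrt
  rw [Real.sqrt_zero] at h2
  refine h2.congr ?_
  intro m
  rw [Real.sqrt_sq (norm_nonneg _)]

/-- existence of the limit Hessian -/
lemma exists_LimJ {X Y : Fin n → A} (h : LipschitzMonotone τ X Y) (U : Ultrafilter ℕ)
    (hU : (U : Filter ℕ) ≤ atTop) : Nonempty (r.LimJ X Y U) := by
  obtain ⟨Λ, g, hB, hconv⟩ := h.approx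
  have hB' : ∀ m, Bdd τ X (g m) Λ := fun m k p q => hB m k p q
  obtain ⟨JL, hL⟩ := exists_ultra_op U (fun m => r.lJ X (g m)) |Λ| (fun m => r.lJ_norm (hB' m))
  obtain ⟨JR, hR⟩ := exists_ultra_op U (fun m => r.rJ X (g m)) |Λ| (fun m => r.rJ_norm (hB' m))
  exact ⟨⟨Λ, g, hB', fun i => (r.tendsto_of_sqDist (hconv i)).mono_left hU, JL, JR, hL, hR⟩⟩

variable {r}
variable {X Y : Fin n → A} {U : Ultrafilter ℕ}

namespace LimJ

lemma JL_nonneg (D : r.LimJ X Y U) (T : MM n (HH H)) : 0 ≤ ⟪D.JL T, T⟫_ℂ :=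
  D.limL.nonneg (fun m x => r.lJ_nonneg (D.bdd m) x) T

lemma JR_nonneg (D : r.LimJ X Y U) (T : MM n (HH H)) : 0 ≤ ⟪D.JR T, T⟫_ℂ :=
  D.limR.nonneg (fun m x => r.rJ_nonneg (D.bdd m) x) T

lemma JL_symm (D : r.LimJ X Y U) (S T : MM n (HH H)) : ⟪D.JL S, T⟫_ℂ = ⟪S, D.JL T⟫_ℂ :=
  form_selfadj D.JL_nonneg S T

lemma JR_symm (D : r.LimJ X Y U) (S T : MM n (HH H)) : ⟪D.JR S, T⟫_ℂ = ⟪S, D.JR T⟫_ℂ :=
  form_selfadj D.JR_nonneg S T

lemma J_comm (D : r.LimJ X Y U) (T : MM n (HH H)) : D.JL (D.JR T) = D.JR (D.JL T) := by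
  have h1 : ∀ m T, r.lJ X (D.g m) (D.JR T) = D.JR (r.lJ X (D.g m) T) := by
    intro m T
    exact D.limR.comm (C := r.lJ X (D.g m)) (C' := r.lJ X (D.g m))
      (fun x y => form_selfadj (r.lJ_nonneg (D.bdd m)) x y) (fun k x => r.lJ_rJ X _ _ x) T
  exact (D.limL.comm (C := D.JR) (C' := D.JR) (fun x y => D.JR_symm x y)
    (fun m x => (h1 m x).symm) T).symm

lemma J_one (D : r.LimJ X Y U) : D.JL (r.oneM n) = D.JR (r.oneM n) :=
  D.limL.eq_of D.limR fun m => r.lJ_oneM X _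

lemma JR_ent (D : r.LimJ X Y U) (a b : A) (T : MM n (HH H)) :
    ent (tm (r.L a) (r.R b)) (D.JR T) = D.JR (ent (tm (r.L a) (r.R b)) T) := by
  refine D.limR.comm (C := ent (tm (r.L a) (r.R b))) (C' := ent (tm (r.L (star a)) (r.R (star b))))
    ?_ (fun m x => r.ent_rJ X _ a b x) T
  apply ent_inner
  intro x y
  rw [r.tm_LR_adj, star_star, star_star]

lemma JR_local' (D : r.LimJ X Y U) {S T : MM n (HH H)} {i i' : Fin n}
    (h : ∀ l, S (i, l) = T (i', l)) (j : Fin n) : D.JR S (i, j) = D.JR T (i', j) := by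
  apply ext_inner_right ℂ
  intro x
  rw [inner_coord, inner_coord]
  refine tendsto_nhds_unique (D.limR S _) ?_
  refine (D.limR T _).congr ?_
  intro m
  rw [← inner_coord, ← inner_coord]
  congr 1
  unfold rJ
  rw [rmul_apply, rmul_apply]
  refine Finset.sum_congr rfl fun k _ => ?_
  rw [h]

lemma JR_local (D : r.LimJ X Y U) {S T : MM n (HH H)} {i : Fin n} (h : ∀ l, S (i, l) = T (i, l))
    (j : Fin n) : D.JR S (i, j) = D.JR T (i, j) := D.JR_local' h j

/-- the derivative of `Y t` -/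
lemma JR_sgl_lim (D : r.LimJ X Y U) (i t j : Fin n) (z : HH H) :
    Tendsto (fun m => ⟪z, r.evT X (freeDiff j (cyclicDiff t (D.g m)))⟫_ℂ) U
      (𝓝 ⟪z, D.JR (sgl i t (kp (r.ι 1) (r.ι 1))) (i, j)⟫_ℂ) := by
  have h1 := D.limR.right (sgl i j z) (sgl i t (kp (r.ι 1) (r.ι 1)))
  rw [inner_sgl] at h1
  refine h1.congr ?_
  intro m
  rw [inner_sgl]
  congr 1
  unfold rJ
  rw [rmul_sgl, if_pos rfl, r.opR_one]

variable (hSD : SD τ X) (hX : ∀ i, star (X i) = X i) (hY : ∀ i, star (Y i) = Y i)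

include hSD hX hY in
/-- the chain rule for words -/
lemma chain_word (D : r.LimJ X Y U) (w : Word n) : ∀ (i j : Fin n) (T : MM n (HH H)),
    (∀ l, T (i, l) = r.spl Y l w) → r.WD X j (r.ι (wordEval Y w)) (D.JR T (i, j)) := by
  induction w using List.reverseRecOn with
  | nil =>
    intro i j T hT
    have e : D.JR T (i, j) = 0 := by
      rw [D.JR_local (T := 0) (fun l => by rw [hT, r.spl_nil]; rfl) j, map_zero]
      rfl
    rw [e, wordEval_nil]
    exact r.WD_one hSD j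
  | append_singleton w t ih =>
    intro i j T hT
    -- decompose the row
    set T1 : MM n (HH H) := ∑ l, sgl i l (r.spl Y l w) with hT1
    have hT1' : ∀ l, T1 (i, l) = r.spl Y l w := by
      intro l
      rw [hT1, MM_sum_apply, Finset.sum_eq_single l]
      · rw [sgl_apply]; simp
      · intro b _ hb
        rw [sgl_apply]; simp [Ne.symm hb]
      · simp
    set T2 : MM n (HH H) := sgl i t (kp (r.ι 1) (r.ι 1)) with hT2
    have hrow : ∀ l, T (i, l) = (ent (tm (r.L 1) (r.R (Y t))) T1 +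
        ent (tm (r.L (wordEval Y w)) (r.R 1)) T2) (i, l) := by
      intro l
      rw [hT, r.spl_append_single, PiLp.add_apply, ent_apply, ent_apply, hT1', hT2, sgl_apply,
        r.L_one]
      congr 1
      by_cases h : t = l
      · subst h
        simp [tm_kp, r.L_ι, r.R_ι]
      · rw [if_neg h, if_neg (fun hh => h hh.2.symm), map_zero]
    have e : D.JR T (i, j) = tm 1 (r.R (Y t)) (D.JR T1 (i, j)) +
        tm (r.L (wordEval Y w)) 1 (D.JR T2 (i, j)) := by
      rw [D.JR_local hrow j, map_add, PiLp.add_apply, ← D.JR_ent, ← D.JR_ent, ent_apply,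
        ent_apply, r.L_one, r.R_one]
    rw [e]
    have hih := ih i j T1 hT1'
    intro u v
    -- approximate
    have hm : ∀ m, ⟪r.dv X j u v, r.ι (wordEval Y w * polyEval X (cyclicDiff t (D.g m)))⟫_ℂ =
        ⟪kp (r.ι (wordEval X u)) (r.ι (wordEval X v)),
          tm 1 (r.R (polyEval X (cyclicDiff t (D.g m)))) (D.JR T1 (i, j))⟫_ℂ +
        ⟪kp (r.ι (wordEval X u)) (r.ι (wordEval X v)),
          tm (r.L (wordEval Y w)) 1 (r.evT X (freeDiff j (cyclicDiff t (D.g m))))⟫_ℂ := by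
      intro m
      rw [← inner_add_right]
      exact r.WD_poly hX hih (cyclicDiff t (D.g m)) u v
    have l1 : Tendsto (fun m => ⟪r.dv X j u v,
        r.ι (wordEval Y w * polyEval X (cyclicDiff t (D.g m)))⟫_ℂ) U
        (𝓝 ⟪r.dv X j u v, r.ι (wordEval Y (w ++ [t]))⟫_ℂ) := by
      have h1 := ((r.L (wordEval Y w)).continuous.tendsto _).comp (D.conv t)
      have h2 : Tendsto (fun m => r.ι (wordEval Y w * polyEval X (cyclicDiff t (D.g m)))) U
          (𝓝 (r.ι (wordEval Y (w ++ [t])))) := by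
        rw [wordEval_append, wordEval_single, ← r.L_ι]
        refine h1.congr ?_
        intro m
        simp only [Function.comp_apply, r.L_ι]
      exact (tendsto_const_nhds).inner h2
    have l2 : Tendsto (fun m => ⟪kp (r.ι (wordEval X u)) (r.ι (wordEval X v)),
          tm 1 (r.R (polyEval X (cyclicDiff t (D.g m)))) (D.JR T1 (i, j))⟫_ℂ) U
        (𝓝 ⟪kp (r.ι (wordEval X u)) (r.ι (wordEval X v)),
          tm 1 (r.R (Y t)) (D.JR T1 (i, j))⟫_ℂ) := by
      have hf : ∀ b : A, ⟪kp (r.ι (wordEval X u)) (r.ι (wordEval X v)),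
          tm 1 (r.R b) (D.JR T1 (i, j))⟫_ℂ =
          ⟪kp (r.ι (wordEval X u)) (r.L (wordEval X v) (r.ι (star b))), D.JR T1 (i, j)⟫_ℂ := by
        intro b
        rw [← r.L_one, r.tm_LR_adj, tm_kp, r.L_ι, r.R_ι, star_one, one_mul, r.L_ι]
      have hstar : Tendsto (fun m => r.ι (star (polyEval X (cyclicDiff t (D.g m))))) U
          (𝓝 (r.ι (star (Y t)))) := by
        have h0 := D.conv t
        rw [tendsto_iff_norm_sub_tendsto_zero] at h0 ⊢
        refine h0.congr ?_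
        intro m
        have e1 := r.norm_sub_sq (polyEval X (cyclicDiff t (D.g m))) (Y t)
        have e2 := r.norm_sub_sq (star (polyEval X (cyclicDiff t (D.g m)))) (star (Y t))
        have e3 : sqDist τ (star (polyEval X (cyclicDiff t (D.g m)))) (star (Y t)) =
            sqDist τ (polyEval X (cyclicDiff t (D.g m))) (Y t) := by
          unfold sqDist
          rw [← star_sub, star_star, r.tr]
        rw [e3, ← e1] at e2
        exact (sq_eq_sq₀ (norm_nonneg _) (norm_nonneg _)).1 e2.symm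
      rw [hf]
      have h3 : Tendsto (fun m => kp (r.ι (wordEval X u)) (r.L (wordEval X v)
          (r.ι (star (polyEval X (cyclicDiff t (D.g m))))))) U
          (𝓝 (kp (r.ι (wordEval X u)) (r.L (wordEval X v) (r.ι (star (Y t)))))) := by
        have hc : Continuous fun y : H => kp (r.ι (wordEval X u)) (r.L (wordEval X v) y) :=
          continuous_kp.comp (by fun_prop : Continuous fun y : H =>
            (r.ι (wordEval X u), r.L (wordEval X v) y))
        exact (hc.tendsto _).comp hstar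
      refine (h3.inner tendsto_const_nhds).congr ?_
      intro m
      rw [hf]
    have l3 : Tendsto (fun m => ⟪kp (r.ι (wordEval X u)) (r.ι (wordEval X v)),
          tm (r.L (wordEval Y w)) 1 (r.evT X (freeDiff j (cyclicDiff t (D.g m))))⟫_ℂ) U
        (𝓝 ⟪kp (r.ι (wordEval X u)) (r.ι (wordEval X v)),
          tm (r.L (wordEval Y w)) 1 (D.JR T2 (i, j))⟫_ℂ) := by
      have hf : ∀ z : HH H, ⟪kp (r.ι (wordEval X u)) (r.ι (wordEval X v)),
          tm (r.L (wordEval Y w)) 1 z⟫_ℂ =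
          ⟪tm (r.L (star (wordEval Y w))) (r.R (star 1)) (kp (r.ι (wordEval X u))
            (r.ι (wordEval X v))), z⟫_ℂ := by
        intro z
        rw [← r.R_one, r.tm_LR_adj]
      rw [hf]
      refine (D.JR_sgl_lim i t j _).congr ?_
      intro m
      rw [hf]
    rw [inner_add_right]
    refine tendsto_nhds_unique l1 ?_
    refine (l2.add l3).congr ?_
    intro m
    exact (hm m).symm

end LimJ

end TRep

end Run7.h884
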