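import Mathlib
import Pool.Agent.Run7.h884.Chain

set_option linter.all false

open scoped InnerProductSpace Topology ComplexOrder TensorProduct
open Filter UniformSpace

namespace Run7.h884

variable {A : Type*} [CStarAlgebra A] [PartialOrder A] [StarOrderedRing A]

/-- a matrix with one nonzero row -/
noncomputable def rowOf {n : ℕ} {K : Type*} [NormedAddCommGroup K] [InnerProductSpace ℂ K]
    (i : Fin n) (f : Fin n → K) : MM n K := ∑ l, sgl i l (f l)

lemma rowOf_apply {n : ℕ} {K : Type*} [NormedAddCommGroup K] [InnerProductSpace ℂ K]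
    (i : Fin n) (f : Fin n → K) (a b : Fin n) : rowOf i f (a, b) = if a = i then f b else 0 := by
  unfold rowOf
  rw [MM_sum_apply]
  by_cases h : a = i
  · subst h
    rw [Finset.sum_eq_single b]
    · rw [sgl_apply]; simp
    · intro c _ hc
      rw [sgl_apply]; simp [Ne.symm hc]
    · simp
  · rw [if_neg h]
    apply Finset.sum_eq_zero
    intro c _
    rw [sgl_apply, if_neg (fun hh => h hh.1)]

namespace TRep

variable {τ : A →ₚ[ℂ] ℂ} {H : Type*} [NormedAddCommGroup H] [InnerProductSpace ℂ H] [CompleteSpace H]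
variable {r : TRep τ H} {n : ℕ} {X Y : Fin n → A} {U : Ultrafilter ℕ}

namespace LimJ

variable (hSD : SD τ X) (hX : ∀ i, star (X i) = X i) (hY : ∀ i, star (Y i) = Y i)

include hSD hX hY in
/-- chain rule for polynomials -/
lemma chain_poly (D : r.LimJ X Y U) (P : NCPoly n) : ∀ (i j : Fin n) (T : MM n (HH H)),
    (∀ l, T (i, l) = r.evT Y (freeDiff l P)) → r.WD X j (r.ι (polyEval Y P)) (D.JR T (i, j)) := by
  induction P using Finsupp.induction_linear with
  | zero =>
    intro i j T hT
    have e : D.JR T (i, j) = 0 := by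
      rw [D.JR_local (T := 0) (fun l => by rw [hT, freeDiff_zero, map_zero]; rfl) j, map_zero]
      rfl
    rw [e, polyEval_zero, map_zero]
    exact r.WD_zero X j
  | add P Q hP hQ =>
    intro i j T hT
    have e : D.JR T (i, j) = D.JR (rowOf i fun l => r.evT Y (freeDiff l P)) (i, j) +
        D.JR (rowOf i fun l => r.evT Y (freeDiff l Q)) (i, j) := by
      rw [← PiLp.add_apply, ← map_add]
      apply D.JR_local
      intro l
      rw [hT, PiLp.add_apply, rowOf_apply, rowOf_apply, if_pos rfl, if_pos rfl, freeDiff_add,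
        map_add]
    rw [e, polyEval_add, map_add]
    apply r.WD_add
    · exact hP i j _ (fun l => by rw [rowOf_apply, if_pos rfl])
    · exact hQ i j _ (fun l => by rw [rowOf_apply, if_pos rfl])
  | single w c =>
    intro i j T hT
    have e : D.JR T (i, j) = c • D.JR (rowOf i fun l => r.spl Y l w) (i, j) := by
      rw [← PiLp.smul_apply, ← map_smul]
      apply D.JR_local
      intro l
      rw [hT, PiLp.smul_apply, rowOf_apply, if_pos rfl, evT_freeDiff,
        Finsupp.linearCombination_single]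
    rw [e, polyEval_single, map_smul]
    apply r.WD_smul
    exact D.chain_word hSD hX hY w i j _ (fun l => by rw [rowOf_apply, if_pos rfl])

include hSD hX hY in
/-- chain rule for limits of polynomials -/
lemma chain_limit (D : r.LimJ X Y U) (P : ℕ → NCPoly n) {ξ : H} {T : MM n (HH H)} {i : Fin n}
    (h1 : Tendsto (fun k => r.ι (polyEval Y (P k))) atTop (𝓝 ξ))
    (h2 : ∀ l, Tendsto (fun k => r.evT Y (freeDiff l (P k))) atTop (𝓝 (T (i, l)))) (j : Fin n) :
    r.WD X j ξ (D.JR T (i, j)) := by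
  intro u v
  have hk : ∀ k, ⟪r.dv X j u v, r.ι (polyEval Y (P k))⟫_ℂ =
      ⟪kp (r.ι (wordEval X u)) (r.ι (wordEval X v)),
        D.JR (rowOf i fun l => r.evT Y (freeDiff l (P k))) (i, j)⟫_ℂ := by
    intro k
    exact D.chain_poly hSD hX hY (P k) i j _ (fun l => by rw [rowOf_apply, if_pos rfl]) u v
  have l1 : Tendsto (fun k => ⟪r.dv X j u v, r.ι (polyEval Y (P k))⟫_ℂ) atTop
      (𝓝 ⟪r.dv X j u v, ξ⟫_ℂ) := tendsto_const_nhds.inner h1
  have l2 : Tendsto (fun k => ⟪kp (r.ι (wordEval X u)) (r.ι (wordEval X v)),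
        D.JR (rowOf i fun l => r.evT Y (freeDiff l (P k))) (i, j)⟫_ℂ) atTop
      (𝓝 ⟪kp (r.ι (wordEval X u)) (r.ι (wordEval X v)),
        D.JR (rowOf i fun l => T (i, l)) (i, j)⟫_ℂ) := by
    apply tendsto_const_nhds.inner
    have hr : Tendsto (fun k => (rowOf i fun l => r.evT Y (freeDiff l (P k)) : MM n (HH H))) atTop
        (𝓝 (rowOf i fun l => T (i, l))) := by
      unfold rowOf
      apply tendsto_finset_sum
      intro l _
      exact ((sgl i l).continuous.tendsto _).comp (h2 l)
    have h3 := ((prj i j).continuous.tendsto _).comp ((D.JR.continuous.tendsto _).comp hr)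
    exact h3
  have e : D.JR (rowOf i fun l => T (i, l)) (i, j) = D.JR T (i, j) :=
    D.JR_local (fun l => by rw [rowOf_apply, if_pos rfl]) j
  rw [← e]
  exact tendsto_nhds_unique (l1.congr hk) l2

end LimJ

/-- weak derivatives are unique -/
lemma WD_unique (hd : Dense (Submodule.span ℂ (Set.range fun w => r.ι (wordEval X w)) : Set H))
    {j : Fin n} {x : H} {V W : HH H} (h1 : r.WD X j x V) (h2 : r.WD X j x W) : V = W := by
  apply eq_of_inner_dense _ hd
  intro u v
  rw [← h1, ← h2]

lemma WD_X (hSD : SD τ X) (hX : ∀ i, star (X i) = X i) (i j : Fin n) :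
    r.WD X j (r.ι (X i)) (if i = j then kp (r.ι 1) (r.ι 1) else 0) := by
  have := r.WD_letter hX (r.WD_one hSD j) i
  rw [one_mul, map_zero, zero_add] at this
  exact this

/-- data of a Sobolev inverse -/
structure Inv (r : TRep τ H) (X Y : Fin n → A) where
  F : ℕ → Fin n → NCPoly n
  K : MM n (HH H)
  conv : ∀ i, Tendsto (fun k => r.ι (polyEval Y (F k i))) atTop (𝓝 (r.ι (X i)))
  convK : ∀ i l, Tendsto (fun k => r.evT Y (freeDiff l (F k i))) atTop (𝓝 (K (i, l)))

lemma norm_evT_sq (S : NCTensor n) : ((‖r.evT Y S‖ ^ 2 : ℝ) : ℂ) = tensorInner τ Y S S := by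
  have h : ((‖r.evT Y S‖ ^ 2 : ℝ) : ℂ) = ⟪r.evT Y S, r.evT Y S⟫_ℂ := by
    rw [inner_self_eq_norm_sq_to_K]
    norm_cast
  rw [h]
  unfold evT tensorInner
  rw [Finsupp.linearCombination_apply, Finsupp.sum, sum_inner, Finsupp.sum]
  refine Finset.sum_congr rfl fun u _ => ?_
  rw [inner_sum, Finsupp.sum]
  refine Finset.sum_congr rfl fun v _ => ?_
  rw [inner_smul_left, inner_smul_right, inner_kk, ← mul_assoc]
  rfl

lemma exists_Inv (h : SobolevInvertible τ X Y) : Nonempty (Inv r X Y) := by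
  obtain ⟨F, h1, h2⟩ := h
  have hC : ∀ i l, ∃ z : HH H, Tendsto (fun k => r.evT Y (freeDiff l (F k i))) atTop (𝓝 z) := by
    intro i l
    apply cauchySeq_tendsto_of_complete
    rw [Metric.cauchySeq_iff]
    intro ε hε
    obtain ⟨N, hN⟩ := h2 i l (ε ^ 2) (by positivity)
    refine ⟨N, fun a ha b hb => ?_⟩
    have := hN a ha b hb
    rw [freeDiff_sub, ← norm_evT_sq (r := r), map_sub, Complex.ofReal_re] at this
    rw [dist_eq_norm]
    exact lt_of_pow_lt_pow_left₀ 2 hε.le this
  choose z hz using hC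
  refine ⟨⟨F, ∑ i, ∑ l, sgl i l (z i l), fun i => r.tendsto_of_sqDist (h1 i), ?_⟩⟩
  intro i l
  have e : (∑ i, ∑ l, sgl i l (z i l) : MM n (HH H)) (i, l) = z i l := by
    rw [MM_sum_apply, Finset.sum_eq_single i, MM_sum_apply, Finset.sum_eq_single l]
    · rw [sgl_apply]; simp
    · intro b _ hb
      rw [sgl_apply]; simp [Ne.symm hb]
    · simp
    · intro b _ hb
      rw [MM_sum_apply]
      apply Finset.sum_eq_zero
      intro c _
      rw [sgl_apply]; simp [Ne.symm hb]
    · simp
  rw [e]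
  exact hz i l

section

variable (hSD : SD τ X) (hX : ∀ i, star (X i) = X i) (hY : ∀ i, star (Y i) = Y i)
  (hd : Dense (Submodule.span ℂ (Set.range fun w => r.ι (wordEval X w)) : Set H))

include hSD hX hY hd in
/-- `K J = 1` -/
lemma JR_K (D : r.LimJ X Y U) (I : Inv r X Y) : D.JR I.K = r.oneM n := by
  apply MM_ext
  intro i j
  rw [r.oneM_apply]
  exact WD_unique hd (D.chain_limit hSD hX hY (fun k => I.F k i) (I.conv i) (I.convK i) j)
    (WD_X hSD hX i j)

include hSD hX hY hd in
/-- `J K = 1` -/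
lemma JL_K (D : r.LimJ X Y U) (I : Inv r X Y) : D.JL I.K = r.oneM n := by
  have hK := JR_K hSD hX hY hd D I
  have h1 : ∀ T, ⟪D.JL I.K, D.JR T⟫_ℂ = ⟪r.oneM n, D.JR T⟫_ℂ := by
    intro T
    rw [← D.JR_symm, ← D.J_comm, hK, D.J_one, D.JR_symm]
  -- range of JR contains the elementary matrices
  have h2 : ∀ (k l : Fin n) (a b : A), ∃ T, D.JR T = sgl k l (kp (r.ι a) (r.ι b)) := by
    intro k l a b
    refine ⟨ent (tm (r.L a) (r.R b)) (rowOf k fun m => I.K (l, m)), ?_⟩
    rw [← D.JR_ent]
    have e : D.JR (rowOf k fun m => I.K (l, m)) = sgl k l (kp (r.ι 1) (r.ι 1)) := by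
      apply MM_ext
      intro i j
      by_cases h : i = k
      · subst h
        rw [D.JR_local' (T := I.K) (i' := l) (fun m => by rw [rowOf_apply, if_pos rfl]) j, hK,
          r.oneM_apply, sgl_apply]
        by_cases h' : l = j
        · subst h'
          simp
        · rw [if_neg h', if_neg (fun hh => h' hh.2.symm)]
      · rw [D.JR_local (T := 0) (fun m => by rw [rowOf_apply, if_neg h]; rfl) j, map_zero,
          sgl_apply, if_neg (fun hh => h hh.1)]
        rfl
    rw [e, ent_sgl, tm_kp, r.L_ι, r.R_ι, mul_one, one_mul]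
  apply MM_ext
  intro i j
  apply eq_of_inner_dense r.ι
  · have : (Submodule.span ℂ (Set.range r.ι) : Set H) ⊇ Set.range r.ι := Submodule.subset_span
    exact r.dense_ι.mono this
  intro a b
  obtain ⟨T, hT⟩ := h2 i j a b
  have h3 := h1 T
  rw [hT] at h3
  rw [← inner_sgl, ← inner_sgl, ← inner_conj_symm, h3, inner_conj_symm]

include hSD hX hY in
/-- the pairing of `X` with a limit of polynomials in `Y` -/
lemma pairing (D : r.LimJ X Y U) (F : ℕ → Fin n → NCPoly n) {ξ : Fin n → H} {T : MM n (HH H)}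
    (h1 : ∀ i, Tendsto (fun k => r.ι (polyEval Y (F k i))) atTop (𝓝 (ξ i)))
    (h2 : ∀ i l, Tendsto (fun k => r.evT Y (freeDiff l (F k i))) atTop (𝓝 (T (i, l)))) :
    ∑ i, ⟪r.ι (X i), ξ i⟫_ℂ = ⟪r.oneM n, D.JR T⟫_ℂ := by
  have h : ∀ i, ⟪r.ι (X i), ξ i⟫_ℂ = ⟪kp (r.ι 1) (r.ι 1), D.JR T (i, i)⟫_ℂ := by
    intro i
    have := D.chain_limit hSD hX hY (fun k => F k i) (h1 i) (h2 i) i [] []
    have e : r.dv X i [] [] = r.ι (X i) := by
      simp [dv, splits, wordEval]
    rw [e] at this
    exact this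
  unfold oneM
  rw [sum_inner]
  refine Finset.sum_congr rfl fun i _ => ?_
  rw [h, inner_sgl]

end

end TRep

end Run7.h884
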