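import Mathlib
import Pool.Agent.Run7.h884.Inv

set_option linter.all false

open scoped InnerProductSpace Topology ComplexOrder TensorProduct
open Filter UniformSpace

namespace Run7.h884

variable {A : Type*} [CStarAlgebra A] [PartialOrder A] [StarOrderedRing A]

namespace TRep

variable {τ : A →ₚ[ℂ] ℂ} {H : Type*} [NormedAddCommGroup H] [InnerProductSpace ℂ H] [CompleteSpace H]
variable (r : TRep τ H) {n : ℕ} {X Y Y' : Fin n → A}

/-- vectors of polynomials -/
noncomputable def evH (Y : Fin n → A) : NCPoly n →ₗ[ℂ] H :=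
  Finsupp.linearCombination ℂ (fun w => r.ι (wordEval Y w))

lemma evH_eq (Y : Fin n → A) (P : NCPoly n) : r.evH Y P = r.ι (polyEval Y P) := by
  unfold evH
  rw [polyEval_eq, Finsupp.linearCombination_apply, Finsupp.linearCombination_apply, Finsupp.sum,
    Finsupp.sum, map_sum]
  refine Finset.sum_congr rfl fun w _ => ?_
  rw [map_smul]

lemma evH_single (Y : Fin n → A) (w : Word n) : r.evH Y (Finsupp.single w 1) = r.ι (wordEval Y w) := by
  unfold evH
  rw [Finsupp.linearCombination_single, one_smul]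

lemma range_evH (Y : Fin n → A) : (Set.range (r.evH Y) : Set H) =
    (Submodule.span ℂ (Set.range fun w => r.ι (wordEval Y w)) : Set H) := by
  unfold evH
  rw [← Finsupp.range_linearCombination]
  rfl

lemma inner_words (hY : ∀ i, star (Y i) = Y i) (hY' : ∀ i, star (Y' i) = Y' i)
    (hlaw : SameLaw τ Y Y') (u v : Word n) :
    ⟪r.ι (wordEval Y u), r.ι (wordEval Y v)⟫_ℂ = ⟪r.ι (wordEval Y' u), r.ι (wordEval Y' v)⟫_ℂ := by
  have := hlaw (Finsupp.single (u.reverse ++ v) 1)
  rw [polyEval_single, polyEval_single, one_smul, one_smul, wordEval_append, wordEval_append,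
    ← star_wordEval hY, ← star_wordEval hY'] at this
  rw [r.inner_ι, r.inner_ι, this]

lemma norm_evH (hY : ∀ i, star (Y i) = Y i) (hY' : ∀ i, star (Y' i) = Y' i)
    (hlaw : SameLaw τ Y Y') (P : NCPoly n) : ‖r.evH Y' P‖ = ‖r.evH Y P‖ := by
  have h : ⟪r.evH Y' P, r.evH Y' P⟫_ℂ = ⟪r.evH Y P, r.evH Y P⟫_ℂ := by
    unfold evH
    rw [Finsupp.linearCombination_apply, Finsupp.linearCombination_apply, Finsupp.sum, Finsupp.sum,
      sum_inner, sum_inner]
    refine Finset.sum_congr rfl fun u _ => ?_
    rw [inner_sum, inner_sum]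
    refine Finset.sum_congr rfl fun v _ => ?_
    rw [inner_smul_left, inner_smul_right, inner_smul_left, inner_smul_right,
      r.inner_words hY hY' hlaw]
  rw [inner_self_eq_norm_sq_to_K, inner_self_eq_norm_sq_to_K] at h
  have h' : ‖r.evH Y' P‖ ^ 2 = ‖r.evH Y P‖ ^ 2 := by exact_mod_cast h
  exact (sq_eq_sq₀ (norm_nonneg _) (norm_nonneg _)).1 h'

/-- the unitary implementing equality of laws -/
lemma exists_Theta (hY : ∀ i, star (Y i) = Y i) (hY' : ∀ i, star (Y' i) = Y' i)
    (hlaw : SameLaw τ Y Y')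
    (hd : Dense (Submodule.span ℂ (Set.range fun w => r.ι (wordEval Y w)) : Set H))
    (hd' : Dense (Submodule.span ℂ (Set.range fun w => r.ι (wordEval Y' w)) : Set H)) :
    ∃ Θ : H ≃ₗᵢ[ℂ] H, ∀ w, Θ (r.ι (wordEval Y w)) = r.ι (wordEval Y' w) := by
  have h1 : DenseRange (r.evH Y) := by
    unfold DenseRange
    rw [range_evH]
    exact hd
  have h2 : DenseRange (r.evH Y') := by
    unfold DenseRange
    rw [range_evH]
    exact hd'
  refine ⟨(LinearEquiv.refl ℂ (NCPoly n)).extendOfIsometry (r.evH Y) (r.evH Y') h1 h2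
    (fun P => r.norm_evH hY hY' hlaw P), ?_⟩
  intro w
  have := LinearEquiv.extendOfIsometry_eq (LinearEquiv.refl ℂ (NCPoly n)) (r.evH Y) (r.evH Y')
    h1 h2 (fun P => r.norm_evH hY hY' hlaw P) (Finsupp.single w 1)
  rw [LinearEquiv.refl_apply, evH_single, evH_single] at this
  exact this

variable {r}

lemma Theta_poly {Θ : H ≃ₗᵢ[ℂ] H} (hΘ : ∀ w, Θ (r.ι (wordEval Y w)) = r.ι (wordEval Y' w))
    (P : NCPoly n) : Θ (r.ι (polyEval Y P)) = r.ι (polyEval Y' P) := by
  rw [← evH_eq, ← evH_eq]
  unfold evH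
  rw [Finsupp.linearCombination_apply, Finsupp.linearCombination_apply, Finsupp.sum, Finsupp.sum,
    map_sum]
  refine Finset.sum_congr rfl fun w _ => ?_
  rw [map_smul, hΘ]

lemma uu_evT {Θ : H ≃ₗᵢ[ℂ] H} (hΘ : ∀ w, Θ (r.ι (wordEval Y w)) = r.ι (wordEval Y' w))
    (T : NCTensor n) : uu Θ (r.evT Y T) = r.evT Y' T := by
  unfold evT
  rw [Finsupp.linearCombination_apply, Finsupp.linearCombination_apply, Finsupp.sum, Finsupp.sum,
    map_sum]
  refine Finset.sum_congr rfl fun w _ => ?_
  rw [map_smul, uu_kp, hΘ, hΘ]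

/-- words in `Y` are total if `X` is a limit of polynomials in `Y` -/
lemma dense_of_Inv (hd : Dense (Submodule.span ℂ (Set.range fun w => r.ι (wordEval X w)) : Set H))
    (I : Inv r X Y) :
    Dense (Submodule.span ℂ (Set.range fun w => r.ι (wordEval Y w)) : Set H) := by
  set S := (Submodule.span ℂ (Set.range fun w => r.ι (wordEval Y w))).topologicalClosure with hS
  have key : ∀ (w u : Word n), r.ι (wordEval Y u * wordEval X w) ∈ S := by
    intro w
    induction w with
    | nil =>
      intro u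
      rw [wordEval_nil, mul_one]
      exact Submodule.le_topologicalClosure _ (Submodule.subset_span ⟨u, rfl⟩)
    | cons i w ih =>
      intro u
      have h1 : Tendsto (fun k => r.R (wordEval X w) (r.L (wordEval Y u)
          (r.ι (polyEval Y (I.F k i))))) atTop
          (𝓝 (r.R (wordEval X w) (r.L (wordEval Y u) (r.ι (X i))))) :=
        ((r.R (wordEval X w)).continuous.tendsto _).comp
          (((r.L (wordEval Y u)).continuous.tendsto _).comp (I.conv i))
      have e : r.R (wordEval X w) (r.L (wordEval Y u) (r.ι (X i))) =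
          r.ι (wordEval Y u * wordEval X (i :: w)) := by
        rw [r.L_ι, r.R_ι, wordEval_cons, mul_assoc]
      rw [e] at h1
      refine (Submodule.isClosed_topologicalClosure _).mem_of_tendsto h1
        (Eventually.of_forall fun k => ?_)
      rw [← evH_eq]
      unfold evH
      rw [Finsupp.linearCombination_apply, Finsupp.sum, map_sum, map_sum]
      apply Submodule.sum_mem
      intro v _
      rw [map_smul, map_smul]
      apply Submodule.smul_mem
      rw [r.L_ι, r.R_ι, ← wordEval_append]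
      exact ih _
  have hle : (Submodule.span ℂ (Set.range fun w => r.ι (wordEval X w))) ≤ S := by
    rw [Submodule.span_le]
    rintro _ ⟨w, rfl⟩
    have := key w []
    rw [wordEval_nil, one_mul] at this
    exact this
  have htop : Dense (S : Set H) := hd.mono hle
  have : (S : Set H) = Set.univ := by
    have hc : IsClosed (S : Set H) := Submodule.isClosed_topologicalClosure _
    rw [← hc.closure_eq]
    exact htop.closure_eq
  rw [dense_iff_closure_eq]
  rw [← this]
  rfl

/-- a bounded operator commuting with left multiplications by `Y` commutes with those by `X` -/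
lemma comm_L (hX : ∀ i, star (X i) = X i)
    (hd : Dense (Submodule.span ℂ (Set.range fun w => r.ι (wordEval Y w)) : Set H))
    (I : Inv r X Y) (T : H →L[ℂ] H)
    (hT : ∀ w x, T (r.L (wordEval Y w) x) = r.L (wordEval Y w) (T x)) (i : Fin n) (x : H) :
    T (r.L (X i) x) = r.L (X i) (T x) := by
  have hTP : ∀ (P : NCPoly n) x, T (r.L (polyEval Y P) x) = r.L (polyEval Y P) (T x) := by
    intro P x
    have hL : ∀ y, r.L (polyEval Y P) y = P.sum fun w c => c • r.L (wordEval Y w) y := by
      intro y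
      have : r.L (polyEval Y P) = P.sum fun w c => c • r.L (wordEval Y w) := by
        apply r.ext_ι
        intro a
        rw [r.L_ι]
        unfold polyEval
        rw [Finsupp.sum, Finsupp.sum, ContinuousLinearMap.sum_apply, Finset.sum_mul, map_sum]
        refine Finset.sum_congr rfl fun w _ => ?_
        rw [ContinuousLinearMap.smul_apply, r.L_ι, smul_mul_assoc, map_smul]
      rw [this, Finsupp.sum, Finsupp.sum, ContinuousLinearMap.sum_apply]
      rfl
    rw [hL, hL, Finsupp.sum, Finsupp.sum, map_sum]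
    refine Finset.sum_congr rfl fun w _ => ?_
    rw [map_smul, hT]
  have hstar : Tendsto (fun k => r.ι (star (polyEval Y (I.F k i)))) atTop (𝓝 (r.ι (X i))) := by
    have h0 := I.conv i
    rw [tendsto_iff_norm_sub_tendsto_zero] at h0 ⊢
    refine h0.congr ?_
    intro m
    have e1 := r.norm_sub_sq (polyEval Y (I.F m i)) (X i)
    have e2 := r.norm_sub_sq (star (polyEval Y (I.F m i))) (X i)
    have e3 : sqDist τ (star (polyEval Y (I.F m i))) (X i) =
        sqDist τ (polyEval Y (I.F m i)) (X i) := by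
      unfold sqDist
      nth_rewrite 1 2 [← hX i]
      rw [← star_sub, star_star, r.tr]
    rw [e3, ← e1] at e2
    exact (sq_eq_sq₀ (norm_nonneg _) (norm_nonneg _)).1 e2.symm
  have key : ∀ u v : Word n, ⟪T (r.L (X i) (r.ι (wordEval Y u))), r.ι (wordEval Y v)⟫_ℂ =
      ⟪r.L (X i) (T (r.ι (wordEval Y u))), r.ι (wordEval Y v)⟫_ℂ := by
    intro u v
    have l1 : Tendsto (fun k => ⟪T (r.L (polyEval Y (I.F k i)) (r.ι (wordEval Y u))),
        r.ι (wordEval Y v)⟫_ℂ) atTop
        (𝓝 ⟪T (r.L (X i) (r.ι (wordEval Y u))), r.ι (wordEval Y v)⟫_ℂ) := by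
      have h1 := (T.continuous.tendsto _).comp
        (((r.R (wordEval Y u)).continuous.tendsto _).comp (I.conv i))
      have e1 : T (r.R (wordEval Y u) (r.ι (X i))) = T (r.L (X i) (r.ι (wordEval Y u))) := by
        rw [r.R_ι, r.L_ι]
      rw [e1] at h1
      refine (h1.inner tendsto_const_nhds).congr ?_
      intro k
      simp only [Function.comp_apply, r.R_ι, r.L_ι]
    have l2 : Tendsto (fun k => ⟪T (r.L (polyEval Y (I.F k i)) (r.ι (wordEval Y u))),
        r.ι (wordEval Y v)⟫_ℂ) atTop
        (𝓝 ⟪r.L (X i) (T (r.ι (wordEval Y u))), r.ι (wordEval Y v)⟫_ℂ) := by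
      have h1 := ((r.R (wordEval Y v)).continuous.tendsto _).comp hstar
      have e1 : ⟪r.L (X i) (T (r.ι (wordEval Y u))), r.ι (wordEval Y v)⟫_ℂ =
          ⟪T (r.ι (wordEval Y u)), r.R (wordEval Y v) (r.ι (X i))⟫_ℂ := by
        rw [r.L_adj, hX, r.L_ι, r.R_ι]
      rw [e1]
      refine (tendsto_const_nhds.inner h1).congr ?_
      intro k
      simp only [Function.comp_apply]
      rw [hTP, r.L_adj, r.L_ι, r.R_ι]
    exact tendsto_nhds_unique l1 l2
  -- density
  have key2 : ∀ (u : Word n), T (r.L (X i) (r.ι (wordEval Y u))) = r.L (X i) (T (r.ι (wordEval Y u))) := by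
    intro u
    apply ext_inner_right ℂ
    intro y
    refine dense_ind hd (p := fun y => ⟪T (r.L (X i) (r.ι (wordEval Y u))), y⟫_ℂ =
      ⟪r.L (X i) (T (r.ι (wordEval Y u))), y⟫_ℂ) (isClosed_eq (by fun_prop) (by fun_prop)) ?_ y
    intro y hy
    refine Submodule.span_induction (p := fun y _ => ⟪T (r.L (X i) (r.ι (wordEval Y u))), y⟫_ℂ =
      ⟪r.L (X i) (T (r.ι (wordEval Y u))), y⟫_ℂ) ?_ ?_ ?_ ?_ hy
    · rintro _ ⟨v, rfl⟩
      exact key u v
    · simp
    · intro a b _ _ ha hb
      rw [inner_add_right, inner_add_right, ha, hb]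
    · intro c a _ ha
      rw [inner_smul_right, inner_smul_right, ha]
  refine dense_ind hd (p := fun x => T (r.L (X i) x) = r.L (X i) (T x))
    (isClosed_eq (by fun_prop) (by fun_prop)) ?_ x
  intro x hx
  refine Submodule.span_induction (p := fun x _ => T (r.L (X i) x) = r.L (X i) (T x)) ?_ ?_ ?_ ?_ hx
  · rintro _ ⟨v, rfl⟩
    exact key2 v
  · simp
  · intro a b _ _ ha hb
    rw [map_add, map_add, map_add, map_add, ha, hb]
  · intro c a _ ha
    rw [map_smul, map_smul, map_smul, map_smul, ha]

end TRep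

end Run7.h884
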