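import Mathlib
import Pool.Agent.Run7.h884.Theta

set_option linter.all false

open scoped InnerProductSpace Topology ComplexOrder TensorProduct
open Filter UniformSpace

namespace Run7.h884

variable {A : Type*} [CStarAlgebra A] [PartialOrder A] [StarOrderedRing A]

namespace TRep

variable {τ : A →ₚ[ℂ] ℂ} {H : Type*} [NormedAddCommGroup H] [InnerProductSpace ℂ H] [CompleteSpace H]
variable {r : TRep τ H} {n : ℕ} {X Y Y' : Fin n → A}

/-- a bounded operator commuting with right multiplications by `Y` commutes with those by `X` -/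
lemma comm_R (hX : ∀ i, star (X i) = X i)
    (hd : Dense (Submodule.span ℂ (Set.range fun w => r.ι (wordEval Y w)) : Set H))
    (I : Inv r X Y) (T : H →L[ℂ] H)
    (hT : ∀ w x, T (r.R (wordEval Y w) x) = r.R (wordEval Y w) (T x)) (i : Fin n) (x : H) :
    T (r.R (X i) x) = r.R (X i) (T x) := by
  have hTP : ∀ (P : NCPoly n) x, T (r.R (polyEval Y P) x) = r.R (polyEval Y P) (T x) := by
    intro P x
    have hL : ∀ y, r.R (polyEval Y P) y = P.sum fun w c => c • r.R (wordEval Y w) y := by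
      intro y
      have : r.R (polyEval Y P) = P.sum fun w c => c • r.R (wordEval Y w) := by
        apply r.ext_ι
        intro a
        rw [r.R_ι]
        unfold polyEval
        rw [Finsupp.sum, Finsupp.sum, ContinuousLinearMap.sum_apply, Finset.mul_sum, map_sum]
        refine Finset.sum_congr rfl fun w _ => ?_
        rw [ContinuousLinearMap.smul_apply, r.R_ι, mul_smul_comm, map_smul]
      rw [this, Finsupp.sum, Finsupp.sum, ContinuousLinearMap.sum_apply]
      rfl
    rw [hL, hL, Finsupp.sum, Finsupp.sum, map_sum]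
    refine Finset.sum_congr rfl fun w _ => ?_
    rw [map_smul, hT]
  have hstar : Tendsto (fun k => r.ι (star (polyEval Y (I.F k i)))) atTop (𝓝 (r.ι (X i))) := by
    have h0 := I.conv i
    rw [tendsto_iff_norm_sub_tendsto_zero] at h0 ⊢
    refine h0.congr ?_
    intro m
    have e1 := r.norm_sub_sq (polyEval Y (I.F m i)) (X i)
    have e2 := r.norm_sub_sq (star (polyEval Y (I.F m i))) (X i)
    have e3 : sqDist τ (star (polyEval Y (I.F m i))) (X i) =
        sqDist τ (polyEval Y (I.F m i)) (X i) := by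
      unfold sqDist
      nth_rewrite 1 2 [← hX i]
      rw [← star_sub, star_star, r.tr]
    rw [e3, ← e1] at e2
    exact (sq_eq_sq₀ (norm_nonneg _) (norm_nonneg _)).1 e2.symm
  have key : ∀ u v : Word n, ⟪T (r.R (X i) (r.ι (wordEval Y u))), r.ι (wordEval Y v)⟫_ℂ =
      ⟪r.R (X i) (T (r.ι (wordEval Y u))), r.ι (wordEval Y v)⟫_ℂ := by
    intro u v
    have l1 : Tendsto (fun k => ⟪T (r.R (polyEval Y (I.F k i)) (r.ι (wordEval Y u))),
        r.ι (wordEval Y v)⟫_ℂ) atTop
        (𝓝 ⟪T (r.R (X i) (r.ι (wordEval Y u))), r.ι (wordEval Y v)⟫_ℂ) := by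
      have h1 := (T.continuous.tendsto _).comp
        (((r.L (wordEval Y u)).continuous.tendsto _).comp (I.conv i))
      have e1 : T (r.L (wordEval Y u) (r.ι (X i))) = T (r.R (X i) (r.ι (wordEval Y u))) := by
        rw [r.R_ι, r.L_ι]
      rw [e1] at h1
      refine (h1.inner tendsto_const_nhds).congr ?_
      intro k
      simp only [Function.comp_apply, r.R_ι, r.L_ι]
    have l2 : Tendsto (fun k => ⟪T (r.R (polyEval Y (I.F k i)) (r.ι (wordEval Y u))),
        r.ι (wordEval Y v)⟫_ℂ) atTop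
        (𝓝 ⟪r.R (X i) (T (r.ι (wordEval Y u))), r.ι (wordEval Y v)⟫_ℂ) := by
      have h1 := ((r.L (wordEval Y v)).continuous.tendsto _).comp hstar
      have e1 : ⟪r.R (X i) (T (r.ι (wordEval Y u))), r.ι (wordEval Y v)⟫_ℂ =
          ⟪T (r.ι (wordEval Y u)), r.L (wordEval Y v) (r.ι (X i))⟫_ℂ := by
        rw [r.R_adj, hX, r.L_ι, r.R_ι]
      rw [e1]
      refine (tendsto_const_nhds.inner h1).congr ?_
      intro k
      simp only [Function.comp_apply]
      rw [hTP, r.R_adj, r.L_ι, r.R_ι]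
    exact tendsto_nhds_unique l1 l2
  have key2 : ∀ (u : Word n), T (r.R (X i) (r.ι (wordEval Y u))) = r.R (X i) (T (r.ι (wordEval Y u))) := by
    intro u
    apply ext_inner_right ℂ
    intro y
    refine dense_ind hd (p := fun y => ⟪T (r.R (X i) (r.ι (wordEval Y u))), y⟫_ℂ =
      ⟪r.R (X i) (T (r.ι (wordEval Y u))), y⟫_ℂ) (isClosed_eq (by fun_prop) (by fun_prop)) ?_ y
    intro y hy
    refine Submodule.span_induction (p := fun y _ => ⟪T (r.R (X i) (r.ι (wordEval Y u))), y⟫_ℂ =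
      ⟪r.R (X i) (T (r.ι (wordEval Y u))), y⟫_ℂ) ?_ ?_ ?_ ?_ hy
    · rintro _ ⟨v, rfl⟩
      exact key u v
    · simp
    · intro a b _ _ ha hb
      rw [inner_add_right, inner_add_right, ha, hb]
    · intro c a _ ha
      rw [inner_smul_right, inner_smul_right, ha]
  refine dense_ind hd (p := fun x => T (r.R (X i) x) = r.R (X i) (T x))
    (isClosed_eq (by fun_prop) (by fun_prop)) ?_ x
  intro x hx
  refine Submodule.span_induction (p := fun x _ => T (r.R (X i) x) = r.R (X i) (T x)) ?_ ?_ ?_ ?_ hx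
  · rintro _ ⟨v, rfl⟩
    exact key2 v
  · simp
  · intro a b _ _ ha hb
    rw [map_add, map_add, map_add, map_add, ha, hb]
  · intro c a _ ha
    rw [map_smul, map_smul, map_smul, map_smul, ha]

lemma comm_L_word (hX : ∀ i, star (X i) = X i)
    (hd : Dense (Submodule.span ℂ (Set.range fun w => r.ι (wordEval Y w)) : Set H))
    (I : Inv r X Y) (T : H →L[ℂ] H)
    (hT : ∀ w x, T (r.L (wordEval Y w) x) = r.L (wordEval Y w) (T x)) (w : Word n) (x : H) :
    T (r.L (wordEval X w) x) = r.L (wordEval X w) (T x) := by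
  induction w generalizing x with
  | nil => simp only [wordEval_nil, r.L_one, ContinuousLinearMap.one_apply]
  | cons i w ih =>
    rw [wordEval_cons, r.L_mul, ContinuousLinearMap.comp_apply, ContinuousLinearMap.comp_apply,
      comm_L hX hd I T hT, ih]

lemma comm_R_word (hX : ∀ i, star (X i) = X i)
    (hd : Dense (Submodule.span ℂ (Set.range fun w => r.ι (wordEval Y w)) : Set H))
    (I : Inv r X Y) (T : H →L[ℂ] H)
    (hT : ∀ w x, T (r.R (wordEval Y w) x) = r.R (wordEval Y w) (T x)) (w : Word n) (x : H) :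
    T (r.R (wordEval X w) x) = r.R (wordEval X w) (T x) := by
  induction w generalizing x with
  | nil => simp only [wordEval_nil, r.R_one, ContinuousLinearMap.one_apply]
  | cons i w ih =>
    rw [wordEval_cons, r.R_mul, ContinuousLinearMap.comp_apply, ContinuousLinearMap.comp_apply,
      ih, comm_R hX hd I T hT]

/-- conjugation of an operator by a unitary -/
noncomputable def cj (Θ : H ≃ₗᵢ[ℂ] H) (P : H →L[ℂ] H) : H →L[ℂ] H :=
  (Θ.symm : H →L[ℂ] H) ∘L P ∘L (Θ : H →L[ℂ] H)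

lemma cj_apply (Θ : H ≃ₗᵢ[ℂ] H) (P : H →L[ℂ] H) (x : H) : cj Θ P x = Θ.symm (P (Θ x)) := rfl

lemma uu_conj (Θ : H ≃ₗᵢ[ℂ] H) (P Q : H →L[ℂ] H) (z : HH H) :
    uu Θ.symm (tm P Q (uu Θ z)) = tm (cj Θ P) (cj Θ Q) z := by
  have : uu Θ.symm ∘L tm P Q ∘L uu Θ = tm (cj Θ P) (cj Θ Q) := by
    apply clm_ext_kp
    intro x y
    simp only [ContinuousLinearMap.comp_apply, uu_kp, tm_kp, cj_apply]
  exact congrArg (fun f => f z) this

/-- `Θ` intertwines left multiplications -/
lemma Theta_L {Θ : H ≃ₗᵢ[ℂ] H} (hΘ : ∀ w, Θ (r.ι (wordEval Y w)) = r.ι (wordEval Y' w))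
    (hd : Dense (Submodule.span ℂ (Set.range fun w => r.ι (wordEval Y w)) : Set H))
    (w : Word n) (x : H) : Θ (r.L (wordEval Y w) x) = r.L (wordEval Y' w) (Θ x) := by
  refine dense_ind hd (p := fun x => Θ (r.L (wordEval Y w) x) = r.L (wordEval Y' w) (Θ x))
    (isClosed_eq (by fun_prop) (by fun_prop)) ?_ x
  intro x hx
  refine Submodule.span_induction
    (p := fun x _ => Θ (r.L (wordEval Y w) x) = r.L (wordEval Y' w) (Θ x)) ?_ ?_ ?_ ?_ hx
  · rintro _ ⟨v, rfl⟩
    beta_reduce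
    rw [r.L_ι, ← wordEval_append, hΘ, hΘ, r.L_ι, ← wordEval_append]
  · simp
  · intro a b _ _ ha hb
    rw [map_add, map_add, map_add, map_add, ha, hb]
  · intro c a _ ha
    rw [map_smul, map_smul, map_smul, map_smul, ha]

lemma Theta_R {Θ : H ≃ₗᵢ[ℂ] H} (hΘ : ∀ w, Θ (r.ι (wordEval Y w)) = r.ι (wordEval Y' w))
    (hd : Dense (Submodule.span ℂ (Set.range fun w => r.ι (wordEval Y w)) : Set H))
    (w : Word n) (x : H) : Θ (r.R (wordEval Y w) x) = r.R (wordEval Y' w) (Θ x) := by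
  refine dense_ind hd (p := fun x => Θ (r.R (wordEval Y w) x) = r.R (wordEval Y' w) (Θ x))
    (isClosed_eq (by fun_prop) (by fun_prop)) ?_ x
  intro x hx
  refine Submodule.span_induction
    (p := fun x _ => Θ (r.R (wordEval Y w) x) = r.R (wordEval Y' w) (Θ x)) ?_ ?_ ?_ ?_ hx
  · rintro _ ⟨v, rfl⟩
    beta_reduce
    rw [r.R_ι, ← wordEval_append, hΘ, hΘ, r.R_ι, ← wordEval_append]
  · simp
  · intro a b _ _ ha hb
    rw [map_add, map_add, map_add, map_add, ha, hb]
  · intro c a _ ha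
    rw [map_smul, map_smul, map_smul, map_smul, ha]

/-- `Θ⁻¹ R_a Θ` commutes with `L_{X_w}` -/
lemma cj_R_comm (hX : ∀ i, star (X i) = X i)
    (hd : Dense (Submodule.span ℂ (Set.range fun w => r.ι (wordEval Y w)) : Set H))
    (I : Inv r X Y) {Θ : H ≃ₗᵢ[ℂ] H}
    (hΘ : ∀ w, Θ (r.ι (wordEval Y w)) = r.ι (wordEval Y' w)) (a : A) (w : Word n) (x : H) :
    cj Θ (r.R a) (r.L (wordEval X w) x) = r.L (wordEval X w) (cj Θ (r.R a) x) := by
  apply comm_L_word hX hd I
  intro w x
  rw [cj_apply, cj_apply, Theta_L hΘ hd, ← r.L_R]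
  apply Θ.injective
  rw [Θ.apply_symm_apply, Theta_L hΘ hd, Θ.apply_symm_apply]

lemma cj_L_comm (hX : ∀ i, star (X i) = X i)
    (hd : Dense (Submodule.span ℂ (Set.range fun w => r.ι (wordEval Y w)) : Set H))
    (I : Inv r X Y) {Θ : H ≃ₗᵢ[ℂ] H}
    (hΘ : ∀ w, Θ (r.ι (wordEval Y w)) = r.ι (wordEval Y' w)) (a : A) (w : Word n) (x : H) :
    cj Θ (r.L a) (r.R (wordEval X w) x) = r.R (wordEval X w) (cj Θ (r.L a) x) := by
  apply comm_R_word hX hd I
  intro w x
  rw [cj_apply, cj_apply, Theta_R hΘ hd, r.L_R]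
  apply Θ.injective
  rw [Θ.apply_symm_apply, Theta_R hΘ hd, Θ.apply_symm_apply]

end TRep

end Run7.h884
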