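import Mathlib
import Pool.Agent.Run7.h884.ThetaR

set_option linter.all false

open scoped InnerProductSpace Topology ComplexOrder TensorProduct
open Filter UniformSpace

namespace Run7.h884

variable {A : Type*} [CStarAlgebra A] [PartialOrder A] [StarOrderedRing A]

namespace TRep

variable {τ : A →ₚ[ℂ] ℂ} {H : Type*} [NormedAddCommGroup H] [InnerProductSpace ℂ H] [CompleteSpace H]
variable {r : TRep τ H} {n : ℕ} {X Y Y' : Fin n → A} {U : Ultrafilter ℕ}

/-- conjugated right multiplication -/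
noncomputable def rB (Θ : H ≃ₗᵢ[ℂ] H) (B : MM n (HH H) →L[ℂ] MM n (HH H)) :
    MM n (HH H) →L[ℂ] MM n (HH H) := ent (uu Θ.symm) ∘L B ∘L ent (uu Θ)

lemma rB_apply (Θ : H ≃ₗᵢ[ℂ] H) (B : MM n (HH H) →L[ℂ] MM n (HH H)) (T : MM n (HH H)) :
    rB Θ B T = ent (uu Θ.symm) (B (ent (uu Θ) T)) := rfl

lemma ent_uu_inner (Θ : H ≃ₗᵢ[ℂ] H) (S T : MM n (HH H)) :
    ⟪ent (uu Θ.symm) S, T⟫_ℂ = ⟪S, ent (uu Θ) T⟫_ℂ := by
  apply ent_inner
  intro x y
  rw [uu_inner, LinearIsometryEquiv.symm_symm]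

lemma ent_uu_inner' (Θ : H ≃ₗᵢ[ℂ] H) (S T : MM n (HH H)) :
    ⟪S, ent (uu Θ.symm) T⟫_ℂ = ⟪ent (uu Θ) S, T⟫_ℂ := by
  rw [← inner_conj_symm, ent_uu_inner, inner_conj_symm]

lemma ent_uu_cancel (Θ : H ≃ₗᵢ[ℂ] H) (T : MM n (HH H)) :
    ent (uu Θ) (ent (uu Θ.symm) T) = T := by
  apply MM_ext
  intro i j
  rw [ent_apply, ent_apply, uu_comp_symm]

lemma rB_wlim (Θ : H ≃ₗᵢ[ℂ] H) {B : ℕ → MM n (HH H) →L[ℂ] MM n (HH H)}
    {T : MM n (HH H) →L[ℂ] MM n (HH H)} (h : WLim U B T) :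
    WLim U (fun k => rB Θ (B k)) (rB Θ T) := by
  intro x y
  rw [rB_apply, ent_uu_inner]
  refine (h _ _).congr ?_
  intro k
  rw [rB_apply, ent_uu_inner]

lemma lJ_rB (hX : ∀ i, star (X i) = X i)
    (hd : Dense (Submodule.span ℂ (Set.range fun w => r.ι (wordEval Y w)) : Set H))
    (I : Inv r X Y) {Θ : H ≃ₗᵢ[ℂ] H}
    (hΘ : ∀ w, Θ (r.ι (wordEval Y w)) = r.ι (wordEval Y' w)) (g g' : NCPoly n)
    (T : MM n (HH H)) : r.lJ X g (rB Θ (r.rJ X g') T) = rB Θ (r.rJ X g') (r.lJ X g T) := by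
  have e : ∀ T, rB Θ (r.rJ X g') T =
      rmul (fun k j => uu Θ.symm ∘L r.opR X (freeDiff j (cyclicDiff k g')) ∘L uu Θ) T := by
    intro T
    apply MM_ext
    intro i j
    rw [rB_apply, ent_apply, rmul_apply]
    unfold rJ
    rw [rmul_apply, map_sum]
    rfl
  rw [e, e]
  unfold lJ
  apply lmul_rmul_comm
  intro i k l j x
  symm
  apply r.comm_opL
  intro u v z
  simp only [ContinuousLinearMap.comp_apply]
  rw [opR_apply, opR_apply, Finsupp.sum, Finsupp.sum, map_sum, map_sum, map_sum]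
  refine Finset.sum_congr rfl fun p _ => ?_
  rw [map_smul, map_smul, map_smul, uu_conj, uu_conj]
  congr 1
  apply tm_comm
  · intro x
    exact cj_R_comm hX hd I hΘ _ _ _
  · intro x
    exact cj_L_comm hX hd I hΘ _ _ _

/-- The main rigidity argument. -/
theorem core (hSD : SD τ X) (hX : ∀ i, star (X i) = X i) (hY : ∀ i, star (Y i) = Y i)
    (hY' : ∀ i, star (Y' i) = Y' i)
    (hd : Dense (Submodule.span ℂ (Set.range fun w => r.ι (wordEval X w)) : Set H))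
    (D : r.LimJ X Y U) (D' : r.LimJ X Y' U) (I : Inv r X Y) (I' : Inv r X Y')
    (hlaw : SameLaw τ Y Y') (i : Fin n) : r.ι (Y i) = r.ι (Y' i) := by
  have hdY := dense_of_Inv hd I
  have hdY' := dense_of_Inv hd I'
  obtain ⟨Θ, hΘ⟩ := r.exists_Theta hY hY' hlaw hdY hdY'
  have hΘs : ∀ w, Θ.symm (r.ι (wordEval Y' w)) = r.ι (wordEval Y w) := by
    intro w
    rw [← hΘ, Θ.symm_apply_apply]
  have hone : Θ (r.ι 1) = r.ι 1 := by
    have := hΘ []
    rwa [wordEval_nil, wordEval_nil] at this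
  have hones : Θ.symm (r.ι 1) = r.ι 1 := by
    have := hΘs []
    rwa [wordEval_nil, wordEval_nil] at this
  have hV1 : ent (uu Θ) (r.oneM n) = r.oneM n := by
    apply MM_ext
    intro a b
    rw [ent_apply, r.oneM_apply]
    split_ifs
    · rw [uu_kp, hone]
    · rw [map_zero]
  have hV1' : ent (uu Θ.symm) (r.oneM n) = r.oneM n := by
    apply MM_ext
    intro a b
    rw [ent_apply, r.oneM_apply]
    split_ifs
    · rw [uu_kp, hones]
    · rw [map_zero]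
  -- positivity and symmetry of the conjugated operator
  have hBpos : ∀ T, 0 ≤ ⟪rB Θ D'.JR T, T⟫_ℂ := by
    intro T
    rw [rB_apply, ent_uu_inner]
    exact D'.JR_nonneg _
  have hBsym : ∀ S T, ⟪rB Θ D'.JR S, T⟫_ℂ = ⟪S, rB Θ D'.JR T⟫_ℂ := form_selfadj hBpos
  -- commutation
  have hcomm1 : ∀ m T, r.lJ X (D.g m) (rB Θ D'.JR T) = rB Θ D'.JR (r.lJ X (D.g m) T) := by
    intro m T
    exact (rB_wlim Θ D'.limR).comm (C := r.lJ X (D.g m)) (C' := r.lJ X (D.g m))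
      (fun x y => form_selfadj (r.lJ_nonneg (D.bdd m)) x y)
      (fun k x => lJ_rB hX hdY I hΘ _ _ x) T
  have hcomm : ∀ T, D.JL (rB Θ D'.JR T) = rB Θ D'.JR (D.JL T) := by
    intro T
    exact (D.limL.comm (C := rB Θ D'.JR) (C' := rB Θ D'.JR) hBsym
      (fun m x => (hcomm1 m x).symm) T).symm
  -- the four matrices
  set K := I.K with hK
  set L : MM n (HH H) := ent (uu Θ.symm) I'.K with hL
  have hJK : D.JL K = r.oneM n := JL_K hSD hX hY hd D I
  have hBL : rB Θ D'.JR L = r.oneM n := by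
    rw [rB_apply, hL, ent_uu_cancel, JR_K hSD hX hY' hd D' I', hV1']
  -- pairings
  have hs : ∑ i, ⟪r.ι (X i), Θ.symm (r.ι (X i))⟫_ℂ = ⟪r.oneM n, D.JR L⟫_ℂ := by
    apply TRep.pairing hSD hX hY D I'.F
    · intro i
      have h1 := (Θ.symm.continuous.tendsto _).comp (I'.conv i)
      refine h1.congr ?_
      intro k
      simp only [Function.comp_apply]
      rw [← Theta_poly hΘ, Θ.symm_apply_apply]
    · intro i l
      have h1 := ((uu Θ.symm).continuous.tendsto _).comp (I'.convK i l)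
      rw [hL, ent_apply]
      refine h1.congr ?_
      intro k
      simp only [Function.comp_apply]
      rw [← uu_evT hΘ, uu_symm_comp]
  have hs' : ∑ i, ⟪r.ι (X i), Θ (r.ι (X i))⟫_ℂ = ⟪r.oneM n, D'.JR (ent (uu Θ) K)⟫_ℂ := by
    apply TRep.pairing hSD hX hY' D' I.F
    · intro i
      have h1 := (Θ.continuous.tendsto _).comp (I.conv i)
      refine h1.congr ?_
      intro k
      simp only [Function.comp_apply]
      rw [Theta_poly hΘ]
    · intro i l
      have h1 := ((uu Θ).continuous.tendsto _).comp (I.convK i l)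
      rw [ent_apply]
      refine h1.congr ?_
      intro k
      simp only [Function.comp_apply]
      rw [uu_evT hΘ]
  set s : ℂ := ∑ i, ⟪r.ι (X i), Θ.symm (r.ι (X i))⟫_ℂ with hsdef
  have hss : (starRingEnd ℂ) (∑ i, ⟪r.ι (X i), Θ (r.ι (X i))⟫_ℂ) = s := by
    rw [map_sum, hsdef]
    refine Finset.sum_congr rfl fun i _ => ?_
    rw [inner_conj_symm, LinearIsometryEquiv.inner_map_eq_flip]
  -- pieces of the quadratic form
  have q1 : ⟪r.oneM n, D.JL L⟫_ℂ = s := by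
    rw [hs, ← D.JL_symm, D.J_one, D.JR_symm]
  have q2 : ⟪rB Θ D'.JR K, r.oneM n⟫_ℂ = s := by
    rw [← hss, hs', inner_conj_symm, rB_apply, ent_uu_inner, hV1]
  have q3 : ⟪rB Θ D'.JR K, D.JL L⟫_ℂ = ⟪r.oneM n, r.oneM n⟫_ℂ := by
    rw [← D.JL_symm, hcomm, hJK, hBsym, hBL]
  have hQ : 0 ≤ ⟪D.JL (rB Θ D'.JR (L - K)), L - K⟫_ℂ :=
    form_mul_nonneg D.JL_nonneg hBpos hcomm _
  have hQ2 : ⟪D.JL (rB Θ D'.JR (L - K)), L - K⟫_ℂ = 2 * s - 2 * ⟪r.oneM n, r.oneM n⟫_ℂ := by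
    rw [D.JL_symm, map_sub, map_sub, hBL, hJK, inner_sub_left, inner_sub_right, inner_sub_right,
      q1, q2, q3]
    ring
  have hkk : ⟪kp (r.ι 1) (r.ι 1), kp (r.ι 1) (r.ι 1)⟫_ℂ = 1 := by
    rw [inner_kk, star_one, one_mul, r.one, one_mul]
  have hn : ⟪r.oneM n, r.oneM n⟫_ℂ = n := by
    have e : ∀ T, ⟪r.oneM n, T⟫_ℂ = ∑ i, ⟪kp (r.ι 1) (r.ι 1), T (i, i)⟫_ℂ := by
      intro T
      unfold oneM
      rw [sum_inner]
      refine Finset.sum_congr rfl fun i _ => ?_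
      rw [inner_sgl]
    rw [e]
    have : ∀ i : Fin n, ⟪kp (r.ι 1) (r.ι 1), r.oneM n (i, i)⟫_ℂ = 1 := by
      intro i
      rw [r.oneM_apply, if_pos rfl, hkk]
    simp [this]
  rw [hQ2, hn] at hQ
  have hre : (n : ℝ) ≤ s.re := by
    rw [Complex.nonneg_iff] at hQ
    have := hQ.1
    simp at this
    linarith
  -- norms
  have hXn : ∀ i, ‖r.ι (X i)‖ ^ 2 = 1 := by
    intro i
    have h1 : τ (X i * X i) = 1 := by
      have := hSD i [i]
      rw [wordEval_single, splits_single, if_pos rfl] at this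
      simpa [wordEval, r.one] using this
    have h2 : ((‖r.ι (X i)‖ ^ 2 : ℝ) : ℂ) = ⟪r.ι (X i), r.ι (X i)⟫_ℂ := by
      rw [inner_self_eq_norm_sq_to_K]
      norm_cast
    rw [r.inner_ι, hX, h1] at h2
    exact_mod_cast h2
  have hdiff : ∀ i, ‖Θ.symm (r.ι (X i)) - r.ι (X i)‖ ^ 2 =
      2 - 2 * (⟪r.ι (X i), Θ.symm (r.ι (X i))⟫_ℂ).re := by
    intro i
    have h1 := _root_.norm_sub_sq (𝕜 := ℂ) (r.ι (X i)) (Θ.symm (r.ι (X i)))
    rw [norm_sub_rev, h1, hXn, Θ.symm.norm_map, hXn]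
    simp only [RCLike.re_to_complex]
    ring
  have hsum : ∑ i, ‖Θ.symm (r.ι (X i)) - r.ι (X i)‖ ^ 2 ≤ 0 := by
    simp_rw [hdiff]
    rw [Finset.sum_sub_distrib, ← Finset.mul_sum]
    have : s.re = ∑ i, (⟪r.ι (X i), Θ.symm (r.ι (X i))⟫_ℂ).re := by
      rw [hsdef, Complex.re_sum]
    rw [← this]
    simp
    linarith
  have hfix : ∀ i, Θ.symm (r.ι (X i)) = r.ι (X i) := by
    intro i
    have h0 : ∑ i, ‖Θ.symm (r.ι (X i)) - r.ι (X i)‖ ^ 2 = 0 :=
      le_antisymm hsum (Finset.sum_nonneg fun _ _ => by positivity)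
    have h1 := (Finset.sum_eq_zero_iff_of_nonneg (fun i _ => by positivity)).1 h0 i (Finset.mem_univ i)
    have h2 : ‖Θ.symm (r.ι (X i)) - r.ι (X i)‖ = 0 := by
      exact pow_eq_zero_iff (two_ne_zero) |>.1 h1
    exact sub_eq_zero.1 (norm_eq_zero.1 h2)
  -- `Θ` fixes all words in `X`
  have hfixw : ∀ w, Θ.symm (r.ι (wordEval X w)) = r.ι (wordEval X w) := by
    intro w
    induction w with
    | nil => rw [wordEval_nil]; exact hones
    | cons i w ih =>
      have h1 := cj_R_comm hX hdY I hΘ (wordEval X w) [i] (r.ι 1)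
      rw [cj_apply, cj_apply, wordEval_single, r.L_ι, mul_one, hone, r.R_ι, one_mul, ih, r.L_ι] at h1
      have h2 : Θ (r.ι (X i)) = r.ι (X i) := by
        rw [← hfix i, Θ.apply_symm_apply, hfix i]
      rw [h2, r.R_ι] at h1
      rw [wordEval_cons]
      exact h1
  have hid : ∀ x, Θ.symm x = x := by
    intro x
    refine dense_ind hd (p := fun x => Θ.symm x = x) (isClosed_eq (by fun_prop) (by fun_prop)) ?_ x
    intro x hx
    refine Submodule.span_induction (p := fun x _ => Θ.symm x = x) ?_ ?_ ?_ ?_ hx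
    · rintro _ ⟨v, rfl⟩
      exact hfixw v
    · simp
    · intro a b _ _ ha hb
      rw [map_add, ha, hb]
    · intro c a _ ha
      rw [map_smul, ha]
  have h3 := hΘs [i]
  rw [hid, wordEval_single, wordEval_single] at h3
  exact h3.symm

end TRep

end Run7.h884
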