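import Mathlib
import Pool.Agent.Run7.h884.Rep

set_option linter.all false

open scoped InnerProductSpace Topology ComplexOrder
open Filter UniformSpace

namespace Run7.h884

variable {A : Type*} [CStarAlgebra A] [PartialOrder A] [StarOrderedRing A]

section

variable (τ : A →ₚ[ℂ] ℂ) (hτ : IsFaithfulTracialState τ)

include hτ in
lemma preGNS_norm_star (x : A) : ‖τ.toPreGNS (star x)‖ = ‖τ.toPreGNS x‖ := by
  rw [PositiveLinearMap.preGNS_norm_def, PositiveLinearMap.preGNS_norm_def,
    PositiveLinearMap.ofPreGNS_toPreGNS, PositiveLinearMap.ofPreGNS_toPreGNS, star_star,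
    hτ.tracial]

include hτ in
lemma preGNS_right_bound (a x : A) : ‖τ.toPreGNS (x * a)‖ ≤ ‖a‖ * ‖τ.toPreGNS x‖ := by
  have h1 : ‖τ.toPreGNS (x * a)‖ = ‖τ.leftMulMapPreGNS (star a) (τ.toPreGNS (star x))‖ := by
    rw [← preGNS_norm_star τ hτ (x * a), star_mul, PositiveLinearMap.leftMulMapPreGNS_apply]
    rfl
  rw [h1]
  calc ‖τ.leftMulMapPreGNS (star a) (τ.toPreGNS (star x))‖ ≤
      ‖τ.leftMulMapPreGNS (star a)‖ * ‖τ.toPreGNS (star x)‖ := ContinuousLinearMap.le_opNorm _ _
    _ ≤ ‖a‖ * ‖τ.toPreGNS x‖ := by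
      rw [preGNS_norm_star τ hτ]
      gcongr
      have h2 : ‖τ.leftMulMapPreGNS (star a)‖ ≤ ‖star a‖ := by
        unfold PositiveLinearMap.leftMulMapPreGNS
        exact LinearMap.mkContinuous_norm_le _ (norm_nonneg _) _
      rwa [norm_star] at h2

/-- right multiplication on the pre-Hilbert space -/
noncomputable def rightMulPre (a : A) : τ.PreGNS →L[ℂ] τ.PreGNS :=
  LinearMap.mkContinuous (τ.toPreGNS.toLinearMap ∘ₗ (LinearMap.mulRight ℂ a) ∘ₗ
    τ.ofPreGNS.toLinearMap) ‖a‖ (fun x => by
      have := preGNS_right_bound τ hτ a (τ.ofPreGNS x)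
      exact this)

lemma rightMulPre_apply (a x : A) :
    rightMulPre τ hτ a (τ.toPreGNS x) = τ.toPreGNS (x * a) := rfl

/-- the `L²` representation of a tracial state -/
noncomputable def gnsRep : TRep τ τ.GNS where
  ι := { toFun := fun a => ((τ.toPreGNS a : τ.PreGNS) : τ.GNS)
         map_add' := fun a b => by rw [map_add, Completion.coe_add]
         map_smul' := fun c a => by
          rw [map_smul, Completion.coe_smul]; rfl }
  L := fun a => (τ.leftMulMapPreGNS a).completion
  R := fun a => (rightMulPre τ hτ a).completion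
  inner_ι := fun a b => by
    simp only [LinearMap.coe_mk, AddHom.coe_mk]
    rw [Completion.inner_coe, PositiveLinearMap.preGNS_inner_def]
    rfl
  L_ι := fun a b => by
    simp only [LinearMap.coe_mk, AddHom.coe_mk]
    rw [ContinuousLinearMap.completion_apply_coe, PositiveLinearMap.leftMulMapPreGNS_apply]
    rfl
  R_ι := fun a b => by
    simp only [LinearMap.coe_mk, AddHom.coe_mk]
    rw [ContinuousLinearMap.completion_apply_coe, rightMulPre_apply]
  dense_ι := by
    have h := Completion.denseRange_coe (α := τ.PreGNS)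
    have e : Set.range (fun a : A => ((τ.toPreGNS a : τ.PreGNS) : τ.GNS)) =
        Set.range ((↑) : τ.PreGNS → τ.GNS) := by
      apply Set.Subset.antisymm
      · rintro _ ⟨a, rfl⟩
        exact ⟨_, rfl⟩
      · rintro _ ⟨a, rfl⟩
        exact ⟨τ.ofPreGNS a, rfl⟩
    unfold DenseRange
    have e2 : Set.range (⇑({ toFun := fun a => ((τ.toPreGNS a : τ.PreGNS) : τ.GNS)
                             map_add' := fun a b => by rw [map_add, Completion.coe_add]
                             map_smul' := fun c a => by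
                              rw [map_smul, Completion.coe_smul]; rfl } : A →ₗ[ℂ] τ.GNS)) =
        Set.range (fun a : A => ((τ.toPreGNS a : τ.PreGNS) : τ.GNS)) := rfl
    rw [e2, e]
    exact h
  tr := hτ.tracial
  one := hτ.map_one

end

end Run7.h884
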