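import Mathlib
import Pool.Agent.Run7.h884.WD

set_option linter.all false

open scoped InnerProductSpace Topology ComplexOrder TensorProduct
open Filter UniformSpace

namespace Run7.h884

variable {A : Type*} [CStarAlgebra A] [PartialOrder A] [StarOrderedRing A]

/-- Wick words -/
noncomputable def wick {n : ℕ} (X : Fin n → A) : Word n → A
  | [] => 1
  | [i] => X i
  | i :: j :: w => X i * wick X (j :: w) - (if i = j then wick X w else 0)

/-- derivative of a word in `A ⊗ A` -/
noncomputable def dT {n : ℕ} (X : Fin n → A) (j : Fin n) (w : Word n) : A ⊗[ℂ] A :=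
  ((splits j w).map fun p => wordEval X p.1 ⊗ₜ[ℂ] wordEval X p.2).sum

/-- derivative of a Wick word in `A ⊗ A` -/
noncomputable def dW {n : ℕ} (X : Fin n → A) (j : Fin n) (w : Word n) : A ⊗[ℂ] A :=
  ((splits j w).map fun p => wick X p.1 ⊗ₜ[ℂ] wick X p.2).sum

/-- multiplication by a letter together with its derivative -/
noncomputable def Mi {n : ℕ} (X : Fin n → A) (j i : Fin n) : (A × (A ⊗[ℂ] A)) →ₗ[ℂ] (A × (A ⊗[ℂ] A)) :=
  LinearMap.prod ((LinearMap.mulLeft ℂ (X i)) ∘ₗ LinearMap.fst ℂ A (A ⊗[ℂ] A))
    ((if i = j then (TensorProduct.mk ℂ A A 1) ∘ₗ LinearMap.fst ℂ A (A ⊗[ℂ] A) else 0) +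
      (LinearMap.mulLeft ℂ ((X i) ⊗ₜ[ℂ] (1 : A))) ∘ₗ LinearMap.snd ℂ A (A ⊗[ℂ] A))

lemma Mi_apply {n : ℕ} (X : Fin n → A) (j i : Fin n) (a : A) (t : A ⊗[ℂ] A) :
    Mi X j i (a, t) = (X i * a, (if i = j then (1 : A) ⊗ₜ[ℂ] a else 0) + (X i ⊗ₜ[ℂ] (1 : A)) * t) := by
  unfold Mi
  by_cases h : i = j
  · simp [h]
  · simp [h]

variable {n : ℕ} (X : Fin n → A)

lemma dT_cons (j i : Fin n) (w : Word n) :
    dT X j (i :: w) = (if i = j then (1 : A) ⊗ₜ[ℂ] wordEval X w else 0) +
      (X i ⊗ₜ[ℂ] (1 : A)) * dT X j w := by
  unfold dT
  rw [splits, List.map_append, List.sum_append, List.map_map]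
  congr 1
  · by_cases h : i = j <;> simp [h, wordEval]
  · rw [← List.sum_map_mul_left]
    congr 1
    apply List.map_congr_left
    intro p _
    simp only [Function.comp_apply, wordEval_cons, Algebra.TensorProduct.tmul_mul_tmul, one_mul]

lemma Mi_word (j i : Fin n) (w : Word n) :
    Mi X j i (wordEval X w, dT X j w) = (wordEval X (i :: w), dT X j (i :: w)) := by
  rw [Mi_apply, dT_cons, wordEval_cons]

lemma dW_nil (j : Fin n) : dW X j [] = 0 := by simp [dW, splits]

lemma wick_mul_nil (i : Fin n) : X i * wick X [] = wick X [i] := by simp [wick]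

lemma wick_mul_cons (i k : Fin n) (w : Word n) :
    X i * wick X (k :: w) = wick X (i :: k :: w) + (if i = k then wick X w else 0) := by
  rw [wick]; abel

lemma dW_cons (j i : Fin n) (w : Word n) :
    dW X j (i :: w) = (if i = j then (1 : A) ⊗ₜ[ℂ] wick X w else 0) +
      ((splits j w).map fun p => wick X (i :: p.1) ⊗ₜ[ℂ] wick X p.2).sum := by
  unfold dW
  rw [splits, List.map_append, List.sum_append, List.map_map]
  congr 1
  by_cases h : i = j <;> simp [h, wick]

lemma dW_step_nil (j i : Fin n) :
    (if i = j then (1 : A) ⊗ₜ[ℂ] wick X [] else 0) + (X i ⊗ₜ[ℂ] (1 : A)) * dW X j [] =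
      dW X j [i] := by
  rw [dW_cons, dW_nil]
  simp [splits]

lemma dW_step_cons (j i k : Fin n) (w : Word n) :
    (if i = j then (1 : A) ⊗ₜ[ℂ] wick X (k :: w) else 0) + (X i ⊗ₜ[ℂ] (1 : A)) * dW X j (k :: w) =
      dW X j (i :: k :: w) + (if i = k then dW X j w else 0) := by
  rw [dW_cons X j i, add_assoc]
  congr 1
  -- compare the sums over splits of `k :: w`
  unfold dW
  rw [← List.sum_map_mul_left, splits, List.map_append, List.map_append, List.sum_append,
    List.sum_append, List.map_map, List.map_map, add_assoc]
  have e1 : (List.map (fun b => (X i ⊗ₜ[ℂ] (1 : A)) * wick X b.1 ⊗ₜ[ℂ] wick X b.2)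
      (if k = j then [([], w)] else [])).sum =
      (List.map (fun p : Word n × Word n => wick X (i :: p.1) ⊗ₜ[ℂ] wick X p.2)
      (if k = j then [([], w)] else [])).sum := by
    by_cases h : k = j
    · simp [h, Algebra.TensorProduct.tmul_mul_tmul, wick]
    · simp [h]
  rw [e1]
  congr 1
  have e2 : ∀ p : Word n × Word n,
      (X i ⊗ₜ[ℂ] (1 : A)) * (wick X (k :: p.1) ⊗ₜ[ℂ] wick X p.2) =
      wick X (i :: k :: p.1) ⊗ₜ[ℂ] wick X p.2 + (if i = k then wick X p.1 ⊗ₜ[ℂ] wick X p.2 else 0) := by
    intro p
    rw [Algebra.TensorProduct.tmul_mul_tmul, one_mul, wick_mul_cons, TensorProduct.add_tmul]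
    by_cases h : i = k <;> simp [h]
  have e3 : (List.map ((fun b => (X i ⊗ₜ[ℂ] (1 : A)) * wick X b.1 ⊗ₜ[ℂ] wick X b.2) ∘
      fun p : Word n × Word n => (k :: p.1, p.2)) (splits j w)) =
      List.map (fun p => wick X (i :: k :: p.1) ⊗ₜ[ℂ] wick X p.2 +
        (if i = k then wick X p.1 ⊗ₜ[ℂ] wick X p.2 else 0)) (splits j w) := by
    apply List.map_congr_left
    intro p _
    simp only [Function.comp_apply]
    rw [e2]
  rw [e3, List.sum_map_add]
  congr 1
  by_cases h : i = k <;> simp [h]

lemma Mi_wick_nil (j i : Fin n) :
    Mi X j i (wick X [], dW X j []) = (wick X [i], dW X j [i]) := by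
  rw [Mi_apply, wick_mul_nil, dW_step_nil]

lemma Mi_wick_cons (j i k : Fin n) (w : Word n) :
    Mi X j i (wick X (k :: w), dW X j (k :: w)) =
      (wick X (i :: k :: w), dW X j (i :: k :: w)) +
        (if i = k then (wick X w, dW X j w) else 0) := by
  rw [Mi_apply, wick_mul_cons, dW_step_cons]
  by_cases h : i = k <;> simp [h]

/-- words are combinations of Wick words, compatibly with derivatives -/
lemma word_mem_span (j : Fin n) (w : Word n) :
    (wordEval X w, dT X j w) ∈ Submodule.span ℂ (Set.range fun v => (wick X v, dW X j v)) := by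
  induction w with
  | nil =>
    apply Submodule.subset_span
    refine ⟨[], ?_⟩
    simp [wick, dW_nil, wordEval, dT, splits]
  | cons i w ih =>
    rw [← Mi_word]
    have h : Submodule.span ℂ (Set.range fun v => (wick X v, dW X j v)) ≤
        (Submodule.span ℂ (Set.range fun v => (wick X v, dW X j v))).comap (Mi X j i) := by
      rw [Submodule.span_le]
      rintro _ ⟨v, rfl⟩
      rw [SetLike.mem_coe, Submodule.mem_comap]
      cases v with
      | nil =>
        rw [Mi_wick_nil]
        exact Submodule.subset_span ⟨_, rfl⟩
      | cons k v =>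
        rw [Mi_wick_cons]
        apply Submodule.add_mem
        · exact Submodule.subset_span ⟨_, rfl⟩
        · split_ifs
          · exact Submodule.subset_span ⟨_, rfl⟩
          · exact Submodule.zero_mem _
    exact h ih

/-- Wick powers are combinations of powers, compatibly with derivatives -/
lemma wick_mem_span (j i : Fin n) (m : ℕ) :
    (wick X (List.replicate m i), dW X j (List.replicate m i)) ∈
      Submodule.span ℂ (Set.range fun k : ℕ => (wordEval X (List.replicate k i), dT X j (List.replicate k i))) := by
  set S := Submodule.span ℂ (Set.range fun k : ℕ =>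
    (wordEval X (List.replicate k i), dT X j (List.replicate k i))) with hS
  have hM : S ≤ S.comap (Mi X j i) := by
    rw [hS, Submodule.span_le]
    rintro _ ⟨k, rfl⟩
    rw [SetLike.mem_coe, Submodule.mem_comap, Mi_word]
    exact Submodule.subset_span ⟨k + 1, rfl⟩
  have key : ∀ m, (wick X (List.replicate m i), dW X j (List.replicate m i)) ∈ S ∧
      (wick X (List.replicate (m + 1) i), dW X j (List.replicate (m + 1) i)) ∈ S := by
    intro m
    induction m with
    | zero =>
      have h0 : (wick X (List.replicate 0 i), dW X j (List.replicate 0 i)) ∈ S := by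
        apply Submodule.subset_span
        refine ⟨0, ?_⟩
        simp [wick, dW_nil, wordEval, dT, splits]
      refine ⟨h0, ?_⟩
      have := hM h0
      rw [Submodule.mem_comap] at this
      have e := Mi_wick_nil X j i
      simp only [List.replicate_zero] at this
      rw [e] at this
      exact this
    | succ m ih =>
      refine ⟨ih.2, ?_⟩
      have h1 := hM ih.2
      rw [Submodule.mem_comap, List.replicate_succ, Mi_wick_cons, if_pos rfl] at h1
      have := Submodule.sub_mem _ h1 ih.1
      rw [add_sub_cancel_right] at this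
      exact this
  exact (key m).1


/-- `τ ⊗ τ` on the algebraic tensor square -/
noncomputable def tt (τ : A →ₚ[ℂ] ℂ) : A ⊗[ℂ] A →ₗ[ℂ] ℂ :=
  LinearMap.mul' ℂ ℂ ∘ₗ TensorProduct.map τ.toLinearMap τ.toLinearMap

lemma tt_tmul (τ : A →ₚ[ℂ] ℂ) (a b : A) : tt τ (a ⊗ₜ[ℂ] b) = τ a * τ b := by
  simp [tt]

/-- the Schwinger-Dyson defect -/
noncomputable def defect (τ : A →ₚ[ℂ] ℂ) (j : Fin n) : (A × (A ⊗[ℂ] A)) →ₗ[ℂ] ℂ :=
  τ.toLinearMap ∘ₗ (LinearMap.mulLeft ℂ (X j)) ∘ₗ LinearMap.fst ℂ A (A ⊗[ℂ] A) -
    (tt τ) ∘ₗ LinearMap.snd ℂ A (A ⊗[ℂ] A)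

lemma defect_apply (τ : A →ₚ[ℂ] ℂ) (j : Fin n) (a : A) (t : A ⊗[ℂ] A) :
    defect X τ j (a, t) = τ (X j * a) - tt τ t := by
  simp [defect]

lemma tt_dT (τ : A →ₚ[ℂ] ℂ) (j : Fin n) (w : Word n) : tt τ (dT X j w) =
    ((splits j w).map fun p => τ (wordEval X p.1) * τ (wordEval X p.2)).sum := by
  unfold dT
  rw [map_list_sum, List.map_map]
  congr 1

lemma tt_dW (τ : A →ₚ[ℂ] ℂ) (j : Fin n) (w : Word n) : tt τ (dW X j w) =
    ((splits j w).map fun p => τ (wick X p.1) * τ (wick X p.2)).sum := by
  unfold dW
  rw [map_list_sum, List.map_map]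
  congr 1

lemma mem_splits {j : Fin n} {w : Word n} {p : Word n × Word n} (h : p ∈ splits j w) :
    w = p.1 ++ j :: p.2 := by
  induction w generalizing p with
  | nil => simp [splits] at h
  | cons i w ih =>
    rw [splits, List.mem_append, List.mem_map] at h
    rcases h with h | ⟨q, hq, rfl⟩
    · by_cases hij : i = j
      · simp [hij] at h
        subst h
        simp [hij]
      · simp [hij] at h
    · simp only [List.cons_append, List.cons.injEq, true_and]
      exact ih hq

/-- if all Wick words are centred then the Schwinger-Dyson equation holds -/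
lemma SD_of_wick (τ : A →ₚ[ℂ] ℂ) (h1 : τ 1 = 1) (hw : ∀ w : Word n, w ≠ [] → τ (wick X w) = 0) :
    SD τ X := by
  have key : ∀ (j : Fin n) (v : Word n), defect X τ j (wick X v, dW X j v) = 0 := by
    intro j v
    rw [defect_apply, tt_dW]
    cases v with
    | nil =>
      rw [wick_mul_nil, hw _ (by simp)]
      simp [splits]
    | cons k v =>
      rw [wick_mul_cons]
      have e0 : τ (wick X (j :: k :: v) + if j = k then wick X v else 0) =
          if j = k then τ (wick X v) else 0 := by
        rw [map_add, hw _ (by simp), zero_add]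
        by_cases h : j = k <;> simp [h]
      rw [e0]
      by_cases hv : v = []
      · subst hv
        by_cases h : j = k
        · subst h
          simp [splits, wick, h1]
        · simp [splits, h, Ne.symm h]
      · rw [hw v hv]
        have e1 : ((splits j (k :: v)).map fun p => τ (wick X p.1) * τ (wick X p.2)) =
            (splits j (k :: v)).map fun _ => (0 : ℂ) := by
          apply List.map_congr_left
          intro p hp
          have h2 := mem_splits hp
          by_cases hp1 : p.1 = []
          · rw [hp1, List.nil_append, List.cons.injEq] at h2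
            rw [hw p.2 (by rw [← h2.2]; exact hv), mul_zero]
          · rw [hw p.1 hp1, zero_mul]
        rw [e1]
        simp
  intro j w
  have hmem := word_mem_span X j w
  have hker : Submodule.span ℂ (Set.range fun v => (wick X v, dW X j v)) ≤
      LinearMap.ker (defect X τ j) := by
    rw [Submodule.span_le]
    rintro _ ⟨v, rfl⟩
    exact key j v
  have := hker hmem
  rw [LinearMap.mem_ker, defect_apply, tt_dT, sub_eq_zero] at this
  exact this

/-- sums over the splittings of a power -/
lemma sum_splits_replicate (i : Fin n) (m : ℕ) (f : ℕ → ℕ → ℂ) :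
    ((splits i (List.replicate m i)).map fun p => f p.1.length p.2.length).sum =
      ∑ a ∈ Finset.range m, f a (m - 1 - a) := by
  induction m generalizing f with
  | zero => simp [splits]
  | succ m ih =>
    rw [List.replicate_succ, splits, if_pos rfl, List.map_append, List.sum_append, List.map_map,
      Finset.sum_range_succ']
    have := ih (fun a b => f (a + 1) b)
    simp only [Function.comp_def, List.length_cons]
    rw [this, add_comm]
    congr 1
    · refine Finset.sum_congr rfl fun a _ => ?_
      congr 1
      omega
    · simp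

lemma splits_replicate_mem (i : Fin n) (m : ℕ) {p : Word n × Word n}
    (h : p ∈ splits i (List.replicate m i)) :
    p.1 = List.replicate p.1.length i ∧ p.2 = List.replicate p.2.length i := by
  have h1 := mem_splits h
  have hall : ∀ b ∈ List.replicate m i, b = i := fun b hb => List.eq_of_mem_replicate hb
  rw [h1] at hall
  constructor
  · rw [List.eq_replicate_iff]
    exact ⟨rfl, fun b hb => hall b (by simp [hb])⟩
  · rw [List.eq_replicate_iff]
    exact ⟨rfl, fun b hb => hall b (by simp [hb])⟩

lemma wordEval_replicate (i : Fin n) (m : ℕ) : wordEval X (List.replicate m i) = X i ^ m := by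
  simp [wordEval]

/-- recursion for semicircle moments -/
lemma semicircleMoment_succ (m : ℕ) : semicircleMoment (m + 1) =
    ∑ a ∈ Finset.range m, semicircleMoment a * semicircleMoment (m - 1 - a) := by
  unfold semicircleMoment
  rcases Nat.even_or_odd m with ⟨N, hN⟩ | ⟨N, hN⟩
  · -- `m = 2N`, moment is odd
    have h1 : ¬ Even (m + 1) := by
      rw [hN]; intro h; rw [Nat.even_iff] at h; omega
    rw [if_neg h1]
    symm
    apply Finset.sum_eq_zero
    intro a ha
    rw [Finset.mem_range] at ha
    by_cases h2 : Even a
    · have h3 : ¬ Even (m - 1 - a) := by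
        rw [Nat.even_iff] at h2 ⊢; omega
      rw [if_neg h3, mul_zero]
    · rw [if_neg h2, zero_mul]
  · have h1 : Even (m + 1) := by
      rw [hN, Nat.even_iff]; omega
    rw [if_pos h1]
    have e1 : (m + 1) / 2 = N + 1 := by omega
    rw [e1, catalan_succ]
    push_cast
    rw [hN]
    -- odd indices vanish
    have e2 : ∑ a ∈ Finset.range (2 * N + 1), (if Even a then (catalan (a / 2) : ℂ) else 0) *
        (if Even (2 * N + 1 - 1 - a) then (catalan ((2 * N + 1 - 1 - a) / 2) : ℂ) else 0) =
        ∑ b ∈ Finset.range (N + 1), (catalan b : ℂ) * (catalan (N - b) : ℂ) := by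
      symm
      apply Finset.sum_of_injOn (fun b => 2 * b)
      · intro a _ b _ hab
        simpa using hab
      · intro b hb
        simp only [Finset.coe_range, Set.mem_Iio] at hb ⊢
        omega
      · intro a ha hna
        by_cases h2 : Even a
        · exfalso
          apply hna
          obtain ⟨b, hb⟩ := h2
          rw [Finset.mem_range] at ha
          refine ⟨b, ?_, ?_⟩
          · simp only [Finset.coe_range, Set.mem_Iio]; omega
          · simp only; omega
        · rw [if_neg h2, zero_mul]
      · intro b hb
        rw [Finset.mem_range] at hb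
        have h3 : Even (2 * b) := ⟨b, by ring⟩
        have h4 : Even (2 * N + 1 - 1 - 2 * b) := ⟨N - b, by omega⟩
        rw [if_pos h3, if_pos h4]
        congr 2
        · congr 1; omega
        · congr 1; omega
    rw [e2]
    rw [Finset.sum_range]

/-- Wick powers are centred -/
lemma tau_wick_replicate (τ : A →ₚ[ℂ] ℂ) (h1 : τ 1 = 1) (i : Fin n)
    (hs : ∀ k, τ (X i ^ k) = semicircleMoment k) (m : ℕ) :
    τ (wick X (List.replicate (m + 1) i)) = 0 := by
  -- the defect vanishes on powers
  have hd : ∀ k, defect X τ i (wick X (List.replicate k i), dW X i (List.replicate k i)) = 0 := by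
    intro k
    have hker : Submodule.span ℂ (Set.range fun k : ℕ =>
        (wordEval X (List.replicate k i), dT X i (List.replicate k i))) ≤
        LinearMap.ker (defect X τ i) := by
      rw [Submodule.span_le]
      rintro _ ⟨k, rfl⟩
      rw [SetLike.mem_coe, LinearMap.mem_ker, defect_apply, tt_dT, wordEval_replicate, ← pow_succ',
        hs, semicircleMoment_succ, ← sum_splits_replicate i k
          (fun a b => semicircleMoment a * semicircleMoment b), sub_eq_zero]
      congr 1
      apply List.map_congr_left
      intro p hp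
      obtain ⟨h3, h4⟩ := splits_replicate_mem i k hp
      rw [h3, h4, wordEval_replicate, wordEval_replicate, hs, hs, List.length_replicate,
        List.length_replicate]
    exact hker (wick_mem_span X i i k)
  -- strong induction
  induction m using Nat.strong_induction_on with
  | _ m ih =>
    have h := hd m
    rw [defect_apply, tt_dW] at h
    cases m with
    | zero =>
      simp only [List.replicate_zero] at h
      rw [wick_mul_nil] at h
      simp [splits] at h
      simpa using h
    | succ m =>
      rw [List.replicate_succ, wick_mul_cons, if_pos rfl, map_add] at h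
      have e1 : ((splits i (i :: List.replicate m i)).map fun p => τ (wick X p.1) * τ (wick X p.2)) =
          (splits i (List.replicate (m + 1) i)).map fun p =>
            (fun a b : ℕ => if a = 0 ∧ b = 0 then (1 : ℂ) else 0) p.1.length p.2.length := by
        rw [← List.replicate_succ]
        apply List.map_congr_left
        intro p hp
        obtain ⟨h3, h4⟩ := splits_replicate_mem i (m + 1) hp
        have hlen : p.1.length + p.2.length = m := by
          have := congrArg List.length (mem_splits hp)
          rw [List.length_replicate, List.length_append, List.length_cons] at this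
          omega
        by_cases ha : p.1.length = 0
        · by_cases hb : p.2.length = 0
          · rw [List.length_eq_zero_iff] at ha hb
            simp [ha, hb, wick, h1]
          · have hb' : p.2.length = (p.2.length - 1) + 1 := by omega
            have := ih (p.2.length - 1) (by omega)
            rw [← hb', ← h4] at this
            rw [this, mul_zero]
            simp [hb]
        · have ha' : p.1.length = (p.1.length - 1) + 1 := by omega
          have := ih (p.1.length - 1) (by omega)
          rw [← ha', ← h3] at this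
          rw [this, zero_mul]
          simp [ha]
      rw [e1, sum_splits_replicate i (m + 1)
        (fun a b : ℕ => if a = 0 ∧ b = 0 then (1 : ℂ) else 0)] at h
      have e2 : ∑ a ∈ Finset.range (m + 1), (if a = 0 ∧ m + 1 - 1 - a = 0 then (1 : ℂ) else 0) =
          τ (wick X (List.replicate m i)) := by
        cases m with
        | zero => simp [wick, h1]
        | succ m =>
          rw [ih m (by omega)]
          apply Finset.sum_eq_zero
          intro a ha
          rw [if_neg]
          rintro ⟨h5, h6⟩
          subst h5
          omega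
      rw [e2, add_sub_cancel_right] at h
      exact h


/-- the rescaled Chebyshev polynomials -/
noncomputable def cheb : ℕ → Polynomial ℂ
  | 0 => 1
  | 1 => Polynomial.X
  | (k + 2) => Polynomial.X * cheb (k + 1) - cheb k

lemma wick_cons_ne (i : Fin n) (w : Word n) (h : w.head? ≠ some i) :
    wick X (i :: w) = X i * wick X w := by
  cases w with
  | nil => simp [wick]
  | cons k w =>
    rw [wick_mul_cons, if_neg, add_zero]
    intro hik
    apply h
    simp [hik]

lemma wick_block (i : Fin n) (w : Word n) (h : w.head? ≠ some i) (k : ℕ) :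
    wick X (List.replicate k i ++ w) = Polynomial.aeval (X i) (cheb k) * wick X w ∧
    wick X (List.replicate (k + 1) i ++ w) = Polynomial.aeval (X i) (cheb (k + 1)) * wick X w := by
  induction k with
  | zero =>
    refine ⟨by simp [cheb], ?_⟩
    simp [cheb, wick_cons_ne X i w h]
  | succ k ih =>
    refine ⟨ih.2, ?_⟩
    have e : List.replicate (k + 1 + 1) i ++ w = i :: i :: (List.replicate k i ++ w) := by
      simp [List.replicate_succ]
    have e' : List.replicate (k + 1) i ++ w = i :: (List.replicate k i ++ w) := by
      simp [List.replicate_succ]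
    rw [e, wick, if_pos rfl, ← e', ih.1, ih.2, cheb, map_sub, map_mul, Polynomial.aeval_X, sub_mul,
      mul_assoc]

lemma exists_block (i : Fin n) (w : Word n) :
    ∃ (k : ℕ) (w' : Word n), w = List.replicate k i ++ w' ∧ w'.head? ≠ some i ∧
      w'.length ≤ w.length := by
  induction w with
  | nil => exact ⟨0, [], by simp⟩
  | cons j w ih =>
    by_cases h : j = i
    · obtain ⟨k, w', h1, h2, h3⟩ := ih
      refine ⟨k + 1, w', ?_, h2, ?_⟩
      · rw [h, List.replicate_succ, List.cons_append, ← h1]
      · rw [List.length_cons]; omega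
    · refine ⟨0, j :: w, by simp, ?_, le_rfl⟩
      simp [h]

/-- Wick words are alternating products of centred Chebyshev polynomials -/
lemma wick_alternating (τ : A →ₚ[ℂ] ℂ) (h1 : τ 1 = 1)
    (hs : ∀ i k, τ (X i ^ k) = semicircleMoment k) (N : ℕ) : ∀ w : Word n, w.length ≤ N →
    ∃ l : List (Fin n × Polynomial ℂ), (l.map Prod.fst).IsChain (· ≠ ·) ∧
      (l.map Prod.fst).head? = w.head? ∧
      (∀ q ∈ l, τ (Polynomial.aeval (X q.1) q.2) = 0) ∧
      wick X w = (l.map fun q => Polynomial.aeval (X q.1) q.2).prod := by
  induction N with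
  | zero =>
    intro w hw
    have : w = [] := List.length_eq_zero_iff.1 (by omega)
    subst this
    exact ⟨[], by simp, by simp, by simp, by simp [wick]⟩
  | succ N ih =>
    intro w hw
    cases w with
    | nil => exact ⟨[], by simp, by simp, by simp, by simp [wick]⟩
    | cons i w =>
      obtain ⟨k, w', h2, h3, h4⟩ := exists_block i w
      rw [List.length_cons] at hw
      obtain ⟨l, hl1, hl2, hl3, hl4⟩ := ih w' (by omega)
      have e : i :: w = List.replicate (k + 1) i ++ w' := by
        rw [List.replicate_succ, List.cons_append, ← h2]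
      refine ⟨(i, cheb (k + 1)) :: l, ?_, ?_, ?_, ?_⟩
      · rw [List.map_cons, List.isChain_cons]
        refine ⟨?_, hl1⟩
        intro y hy hne
        apply h3
        rw [← hl2]
        have hy' : y ∈ (l.map Prod.fst).head? := hy
        rw [Option.mem_def] at hy'
        rw [hy', ← hne]
      · simp
      · intro q hq
        rw [List.mem_cons] at hq
        rcases hq with rfl | hq
        · have := tau_wick_replicate X τ h1 i (hs i) k
          have h5 := (wick_block X i [] (by simp) (k + 1)).1
          rw [List.append_nil] at h5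
          rw [h5] at this
          simpa [wick] using this
        · exact hl3 q hq
      · rw [e, (wick_block X i w' h3 (k + 1)).1, hl4]
        simp

/-- free semicircular families satisfy the Schwinger-Dyson equation -/
theorem SD_of_freeSemicircular (τ : A →ₚ[ℂ] ℂ) (h1 : τ 1 = 1) (hX : IsFreeSemicircular τ X) :
    SD τ X := by
  apply SD_of_wick X τ h1
  intro w hw
  obtain ⟨l, hl1, hl2, hl3, hl4⟩ := wick_alternating X τ h1 hX.semicircular w.length w le_rfl
  rw [hl4]
  apply hX.free l _ hl1 hl3
  intro hl
  subst hl
  cases w with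
  | nil => exact hw rfl
  | cons i w => simp at hl2

end Run7.h884
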