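import Mathlib
import Pool.Agent.Run7.h884.Core
import Pool.Agent.Run7.h884.GNS
import Pool.Agent.Run7.h884.Semi

set_option linter.all false

open scoped InnerProductSpace Topology ComplexOrder
open Filter UniformSpace

namespace Run7.h884

variable {A : Type*} [CStarAlgebra A] [PartialOrder A] [StarOrderedRing A]

lemma dense_of_generates {τ : A →ₚ[ℂ] ℂ} {H : Type*} [NormedAddCommGroup H]
    [InnerProductSpace ℂ H] [CompleteSpace H] (r : TRep τ H) {n : ℕ} {X : Fin n → A}
    (h : Generates τ X) :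
    Dense (Submodule.span ℂ (Set.range fun w => r.ι (wordEval X w)) : Set H) := by
  have h1 : Set.range r.ι ⊆ closure (Submodule.span ℂ (Set.range fun w => r.ι (wordEval X w)) : Set H) := by
    rintro _ ⟨a, rfl⟩
    rw [Metric.mem_closure_iff]
    intro ε hε
    obtain ⟨P, hP⟩ := h a (ε ^ 2) (by positivity)
    refine ⟨r.ι (polyEval X P), ?_, ?_⟩
    · rw [← r.range_evH, ← r.evH_eq]
      exact ⟨P, rfl⟩
    · rw [dist_comm, dist_eq_norm]
      rw [← r.norm_sub_sq] at hP
      exact lt_of_pow_lt_pow_left₀ 2 hε.le hP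
  have h2 : Dense (closure (Submodule.span ℂ (Set.range fun w => r.ι (wordEval X w)) : Set H)) :=
    r.dense_ι.mono h1
  exact dense_closure.1 h2

/-- Uniqueness of monotone transport among Lipschitz, Sobolev-invertible elements. -/
theorem main {n : ℕ} (τ : A →ₚ[ℂ] ℂ) (hτ : IsFaithfulTracialState τ) (X : Fin n → A)
    (hX : IsFreeSemicircular τ X) (hgen : Generates τ X) (Y Y' : Fin n → A)
    (hY : LipschitzMonotone τ X Y) (hY' : LipschitzMonotone τ X Y')
    (hI : SobolevInvertible τ X Y) (hI' : SobolevInvertible τ X Y')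
    (hlaw : SameLaw τ Y Y') : Y = Y' := by
  set r : TRep τ τ.GNS := gnsRep τ hτ with hr
  have hSD : SD τ X := SD_of_freeSemicircular X τ hτ.map_one hX
  have hU : ((hyperfilter ℕ : Ultrafilter ℕ) : Filter ℕ) ≤ atTop := Nat.hyperfilter_le_atTop
  obtain ⟨D⟩ := r.exists_LimJ hY (hyperfilter ℕ) hU
  obtain ⟨D'⟩ := r.exists_LimJ hY' (hyperfilter ℕ) hU
  obtain ⟨I⟩ := TRep.exists_Inv (r := r) hI
  obtain ⟨I'⟩ := TRep.exists_Inv (r := r) hI'
  have hcore := TRep.core hSD hX.selfAdjoint hY.selfAdjoint hY'.selfAdjoint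
    (dense_of_generates r hgen) D D' I I' hlaw
  funext i
  have h1 : r.ι (Y i - Y' i) = 0 := by rw [map_sub, hcore i, sub_self]
  have h2 := r.inner_ι (Y i - Y' i) (Y i - Y' i)
  rw [h1, inner_zero_right] at h2
  exact sub_eq_zero.1 (hτ.faithful _ h2.symm)

end Run7.h884
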